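import Pool.Agent.J6H83.Nr.Inv2

/-!
The action of the general linear group over a finite field on the function field.
-/

set_option autoImplicit false
set_option linter.unusedSectionVars false

open MvPolynomial Matrix Cardinal

universe u v

namespace Pool.Agent.J6H83.Nr

open Pool.Agent.R837.FM
open Pool.Agent.J6H83.Dv (Ue We Xv re We_eq_div map_mem_Xv)

variable {F : Type v} [Field F] [Fintype F] {k : Type u} [Field k] [Algebra F k]
  {E : Type u} [Field E] [Algebra k E] [Algebra F E] [IsScalarTower F k E] {n ρ m : ℕ}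
  {p r : ℕ} [hp : Fact p.Prime] [hc : CharP E p] {w : Matrix (Fin ρ) (Fin m) E}

lemma tau_C (g : Matrix (Fin n) (Fin n) F) (a : E) : tau E ρ g (C a) = C a :=
  (tau E ρ g).commutes a

lemma tau_comp (g h : Matrix (Fin n) (Fin n) F) :
    (tau E ρ g).comp (tau E ρ h) = tau E ρ (h * g) := by
  apply MvPolynomial.algHom_ext
  rintro ⟨i, l⟩
  rw [AlgHom.comp_apply, tau_X, tau_X, map_sum]
  have h1 : ∀ j, tau E ρ g (C (algebraMap F E (h i j)) * X (j, l)) =
      ∑ j', C (algebraMap F E (h i j * g j j')) * X (j', l) := by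
    intro j
    rw [map_mul, tau_C, tau_X, Finset.mul_sum]
    exact Finset.sum_congr rfl fun j' _ => by rw [map_mul, C_mul]; ring
  rw [Finset.sum_congr rfl fun j _ => h1 j, Finset.sum_comm]
  apply Finset.sum_congr rfl
  intro j' _
  rw [← Finset.sum_mul, Matrix.mul_apply, map_sum, map_sum]

lemma tau_one : tau (F := F) E ρ (1 : Matrix (Fin n) (Fin n) F) = AlgHom.id E _ := by
  apply MvPolynomial.algHom_ext
  rintro ⟨i, l⟩
  rw [tau_X, Finset.sum_eq_single i]
  · simp
  · intro j _ hj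
    rw [Matrix.one_apply_ne (Ne.symm hj)]
    simp
  · intro h
    exact absurd (Finset.mem_univ i) h

lemma tau_injective (g : Matrix.GeneralLinearGroup (Fin n) F) :
    Function.Injective (tau E ρ (g : Matrix (Fin n) (Fin n) F)) := by
  apply Function.LeftInverse.injective (g := tau E ρ
    ((g⁻¹ : Matrix.GeneralLinearGroup (Fin n) F) : Matrix (Fin n) (Fin n) F))
  intro f
  have h1 := tau_comp (E := E) (ρ := ρ)
    ((g⁻¹ : Matrix.GeneralLinearGroup (Fin n) F) : Matrix (Fin n) (Fin n) F)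
    (g : Matrix (Fin n) (Fin n) F)
  rw [← Units.val_mul, mul_inv_cancel, Units.val_one, tau_one] at h1
  exact DFunLike.congr_fun h1 f

variable (E ρ) in
/-- The action on the function field. -/
noncomputable def sg (g : Matrix.GeneralLinearGroup (Fin n) F) : LR E n ρ →+* LR E n ρ :=
  IsFractionRing.lift (A := PR E n ρ) (K := LR E n ρ)
    (g := (algebraMap (PR E n ρ) (LR E n ρ)).comp
      (tau E ρ (g : Matrix (Fin n) (Fin n) F)).toRingHom)
    (show Function.Injective fun b => algebraMap (PR E n ρ) (LR E n ρ)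
        (tau E ρ (g : Matrix (Fin n) (Fin n) F) b) from
      (IsFractionRing.injective (PR E n ρ) (LR E n ρ)).comp (tau_injective g))

lemma sg_algebraMap (g : Matrix.GeneralLinearGroup (Fin n) F) (b : PR E n ρ) :
    sg E ρ g (algebraMap (PR E n ρ) (LR E n ρ) b) =
      algebraMap (PR E n ρ) (LR E n ρ) (tau E ρ (g : Matrix (Fin n) (Fin n) F) b) :=
  IsFractionRing.lift_algebraMap _ _

lemma sg_E (g : Matrix.GeneralLinearGroup (Fin n) F) (a : E) :
    sg E ρ g (algebraMap E (LR E n ρ) a) = algebraMap E (LR E n ρ) a := by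
  rw [IsScalarTower.algebraMap_apply E (PR E n ρ) (LR E n ρ), sg_algebraMap,
    MvPolynomial.algebraMap_eq, tau_C]

lemma sg_F (g : Matrix.GeneralLinearGroup (Fin n) F) (a : F) :
    sg E ρ g (algebraMap F (LR E n ρ) a) = algebraMap F (LR E n ρ) a := by
  rw [IsScalarTower.algebraMap_apply F E (LR E n ρ), sg_E]

lemma sg_t (g : Matrix.GeneralLinearGroup (Fin n) F) (i : Fin n) (l : Fin ρ) :
    sg E ρ g (tL E n ρ i l) = ∑ j, algebraMap F (LR E n ρ)
      ((g : Matrix (Fin n) (Fin n) F) i j) * tL E n ρ j l := by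
  rw [tL_apply, sg_algebraMap, tau_X, map_sum]
  apply Finset.sum_congr rfl
  intro j _
  rw [map_mul, IsScalarTower.algebraMap_apply F E (LR E n ρ),
    IsScalarTower.algebraMap_apply E (PR E n ρ) (LR E n ρ), MvPolynomial.algebraMap_eq, tL_apply]

lemma sg_xL (g : Matrix.GeneralLinearGroup (Fin n) F) (v : Matrix (Fin ρ) (Fin m) E) (i : Fin n)
    (j : Fin m) : sg E ρ g (xL n v i j) = ∑ l, algebraMap F (LR E n ρ)
      ((g : Matrix (Fin n) (Fin n) F) i l) * xL n v l j := by
  have h1 : ∀ l, sg E ρ g (tL E n ρ i l * (v.map (algebraMap E (LR E n ρ))) l j) =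
      ∑ l', algebraMap F (LR E n ρ) ((g : Matrix (Fin n) (Fin n) F) i l') *
        (tL E n ρ l' l * (v.map (algebraMap E (LR E n ρ))) l j) := by
    intro l
    rw [map_mul, sg_t, Matrix.map_apply, sg_E, Finset.sum_mul]
    exact Finset.sum_congr rfl fun l' _ => by ring
  rw [xL, Matrix.mul_apply, map_sum, Finset.sum_congr rfl fun l _ => h1 l, Finset.sum_comm]
  apply Finset.sum_congr rfl
  intro l _
  rw [← Finset.mul_sum, Matrix.mul_apply]

lemma sg_R0 (g : Matrix.GeneralLinearGroup (Fin n) F) (t : T0 w) (b : LR E n ρ)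
    (hb : b ∈ R0 k n t) : sg E ρ g b = b := by
  obtain ⟨a, -, rfl⟩ := hb
  exact sg_E g a

lemma sg_H0 [DecidableEq F] (hρn : ρ ≤ n) (g : Matrix.GeneralLinearGroup (Fin n) F)
    (t : T0 w) : sg E ρ g (H0 F p r hρn t) = H0 F p r hρn t := by
  rw [H0, map_prod]
  apply Fintype.prod_equiv (Equiv.mulRight g)
  intro γ
  rw [RingHom.map_det]
  congr 1
  ext1 i j
  rw [RingHom.mapMatrix_apply, Matrix.map_apply]
  simp only [Ue, Matrix.submatrix_apply, gx, Matrix.of_apply, id, map_sum, map_mul, sg_F, sg_xL,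
    Equiv.coe_mulRight, Units.val_mul, Matrix.mul_apply, Finset.sum_mul, Finset.mul_sum]
  rw [Finset.sum_comm]
  exact Finset.sum_congr rfl fun l _ => Finset.sum_congr rfl fun l' _ => by ring

/-- The entries of `t` in terms of the entries of the matrix. -/
lemma exists_tL {e : Fin ρ → Fin m} (he : (Ue w e).det ≠ 0) :
    ∃ V : Matrix (Fin ρ) (Fin ρ) E, ∀ i l, tL E n ρ i l =
      ∑ j, xL n (wq (p ^ r) w) i (e j) * algebraMap E (LR E n ρ) (V j l) := by
  let U : Matrix (Fin ρ) (Fin ρ) (LR E n ρ) := Ue (wL p r n w) e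
  have hU : IsUnit U.det := by
    rw [det_Ue_wL]
    exact (pow_ne_zero _ ((FaithfulSMul.algebraMap_eq_zero_iff _ _).not.2 he)).isUnit
  have h1 : U = (algebraMap E (LR E n ρ)).mapMatrix (Ue (wq (p ^ r) w) e) := rfl
  have h0 : IsUnit (Ue (wq (p ^ r) w) e).det := by
    rw [h1, ← RingHom.map_det, isUnit_iff_ne_zero, map_ne_zero] at hU
    exact hU.isUnit
  have h2 : U⁻¹ = (algebraMap E (LR E n ρ)).mapMatrix (Ue (wq (p ^ r) w) e)⁻¹ := by
    apply Matrix.inv_eq_right_inv
    rw [h1, ← map_mul, Matrix.mul_nonsing_inv _ h0, map_one]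
  have ht : tL E n ρ = (xL n (wq (p ^ r) w)).submatrix id e * U⁻¹ := by
    have h1 : (xL n (wq (p ^ r) w)).submatrix id e = tL E n ρ * U := by
      ext1 i j
      rw [Matrix.submatrix_apply, xL, Matrix.mul_apply, Matrix.mul_apply]
      rfl
    rw [h1, Matrix.mul_assoc, Matrix.mul_nonsing_inv _ hU, Matrix.mul_one]
  refine ⟨(Ue (wq (p ^ r) w) e)⁻¹, fun i l => ?_⟩
  rw [ht, Matrix.mul_apply, h2]
  rfl

/-- An endomorphism which fixes `E` and acts on the rows by a matrix. -/
lemma eq_sg {σ : LR E n ρ →+* LR E n ρ} (hE : ∀ a : E, σ (algebraMap E _ a) = algebraMap E _ a)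
    {g : Matrix.GeneralLinearGroup (Fin n) F} (hw : ∃ e, (Ue w e).det ≠ 0)
    (hσ : ∀ i j, σ (xL n (wq (p ^ r) w) i j) = ∑ l, algebraMap F (LR E n ρ)
      ((g : Matrix (Fin n) (Fin n) F) i l) * xL n (wq (p ^ r) w) l j) : σ = sg E ρ g := by
  obtain ⟨e, he⟩ := hw
  have hσ' : ∀ i j, σ (xL n (wq (p ^ r) w) i j) = sg E ρ g (xL n (wq (p ^ r) w) i j) := by
    intro i j
    rw [hσ, sg_xL]
  obtain ⟨V, hV⟩ := exists_tL (n := n) (p := p) (r := r) he
  have htt : ∀ i l, σ (tL E n ρ i l) = sg E ρ g (tL E n ρ i l) := by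
    intro i l
    rw [hV, map_sum, map_sum]
    apply Finset.sum_congr rfl
    intro j _
    rw [map_mul, map_mul, hE, sg_E, hσ']
  have h2 : σ.comp (algebraMap (PR E n ρ) (LR E n ρ)) =
      (sg E ρ g).comp (algebraMap (PR E n ρ) (LR E n ρ)) := by
    apply MvPolynomial.ringHom_ext
    · intro a
      have h3 := hE a
      have h4 := sg_E (ρ := ρ) g a
      rw [IsScalarTower.algebraMap_apply E (PR E n ρ) (LR E n ρ),
        MvPolynomial.algebraMap_eq] at h3 h4
      rw [RingHom.comp_apply, RingHom.comp_apply, h3, h4]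
    · rintro ⟨i, l⟩
      exact htt i l
  exact IsLocalization.ringHom_ext (nonZeroDivisors (PR E n ρ)) h2

end Pool.Agent.J6H83.Nr
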