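import Pool.Agent.J6H83.Nr.Fld
import Pool.Agent.J6H83.Dv.Stg
import Pool.Agent.J6H83.Pk.Down
import Pool.Agent.R837.FM.Step

/-!
The charts of the vector bundle of the row spaces.
-/

set_option autoImplicit false
set_option linter.unusedSectionVars false

open MvPolynomial Matrix Cardinal

universe u v

namespace Pool.Agent.J6H83.Nr

open Pool.Agent.R837.FM
open Pool.Agent.J6H83.Dv (Ue We Xv re inj_of_det Ue_mul_We We_apply Ue_eq det_Ue We_eq_div We_trans
  stage_of)
open Pool.Agent.Y212.Fk (det_mem)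
open Pool.Agent.J6H83.Pk (adjugate_mem)

section map

variable {ρ m : ℕ} {E K : Type*} [Field E] [Field K] (f : E →+* K)
  (w : Matrix (Fin ρ) (Fin m) E) (e : Fin ρ → Fin m)

lemma Ue_map : Ue (w.map f) e = (Ue w e).map f := rfl

lemma det_Ue_map : (Ue (w.map f) e).det = f (Ue w e).det := by
  rw [Ue_map, RingHom.map_det]
  rfl

lemma We_map (h : (Ue w e).det ≠ 0) (l : Fin ρ) (j : Fin m) :
    We (w.map f) e l j = f (We w e l j) := by
  have h' : (Ue (w.map f) e).det ≠ 0 := by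
    rw [det_Ue_map]
    exact (map_ne_zero f).2 h
  rw [We_eq_div h', We_eq_div h, map_div₀, det_Ue_map, det_Ue_map]

end map

variable {F : Type v} [Field F] [Fintype F] {k : Type u} [Field k] [Algebra F k]
  {E : Type u} [Field E] [Algebra k E] [Algebra F E] [IsScalarTower F k E] {n ρ m : ℕ}
  {p r : ℕ} [hp : Fact p.Prime] [hc : CharP E p] {w : Matrix (Fin ρ) (Fin m) E}

/-- The matrix of the powers of `w` over the function field. -/
noncomputable def wL (p r n : ℕ) (w : Matrix (Fin ρ) (Fin m) E) :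
    Matrix (Fin ρ) (Fin m) (LR E n ρ) := (wq (p ^ r) w).map (algebraMap E (LR E n ρ))

/-- The embedding of `E`, composed with the Frobenius. -/
noncomputable def fE (E : Type u) [Field E] (p r n ρ : ℕ) [hp : Fact p.Prime] [hc : CharP E p] :
    E →+* LR E n ρ := (algebraMap E (LR E n ρ)).comp (iterateFrobenius E p r)

lemma wL_eq (w : Matrix (Fin ρ) (Fin m) E) : wL p r n w = w.map (fE E p r n ρ) := by
  ext1 l j
  rw [wL, Matrix.map_apply, Matrix.map_apply, fE, RingHom.comp_apply, iterateFrobenius_def, wq]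

lemma fE_apply (a : E) : fE E p r n ρ a = algebraMap E (LR E n ρ) a ^ (p ^ r) := by
  rw [fE, RingHom.comp_apply, iterateFrobenius_def, map_pow]

section gam

variable (hρn : ρ ≤ n) (γ : Matrix (Fin n) (Fin n) F) (v : Matrix (Fin ρ) (Fin m) E)

/-- The first `ρ` rows of `γ x`. -/
noncomputable def gx : Matrix (Fin ρ) (Fin m) (LR E n ρ) :=
  Matrix.of fun i j => ∑ l, algebraMap F (LR E n ρ) (γ (Fin.castLE hρn i) l) * xL n v l j

/-- The first `ρ` rows of `γ t`. -/
noncomputable def gt : Matrix (Fin ρ) (Fin ρ) (LR E n ρ) :=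
  Matrix.of fun i j => ∑ l, algebraMap F (LR E n ρ) (γ (Fin.castLE hρn i) l) * tL E n ρ l j

lemma gx_eq : gx hρn γ v = gt (E := E) hρn γ * v.map (algebraMap E (LR E n ρ)) := by
  ext1 i j
  rw [Matrix.mul_apply]
  simp only [gx, gt, Matrix.of_apply, xL, Matrix.mul_apply, Finset.mul_sum, Finset.sum_mul]
  rw [Finset.sum_comm]
  exact Finset.sum_congr rfl fun l _ => Finset.sum_congr rfl fun l' _ => by ring

lemma det_gx (e : Fin ρ → Fin m) : (Ue (gx hρn γ v) e).det =
    (gt (E := E) hρn γ).det * (Ue (v.map (algebraMap E (LR E n ρ))) e).det := by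
  rw [← Matrix.det_mul]
  congr 1
  ext1 i j
  rw [Ue, Matrix.submatrix_apply, gx_eq, Matrix.mul_apply, Matrix.mul_apply]
  rfl

end gam

lemma det_gt_ne (hρn : ρ ≤ n) (γ : Matrix.GeneralLinearGroup (Fin n) F) :
    (gt (E := E) hρn (γ : Matrix (Fin n) (Fin n) F)).det ≠ 0 := by
  let γ' : Matrix (Fin n) (Fin n) F := ((γ⁻¹ : Matrix.GeneralLinearGroup (Fin n) F) : Matrix _ _ F)
  let M : Matrix (Fin ρ) (Fin ρ) (PR E n ρ) := Matrix.of fun i j =>
    ∑ l, C (algebraMap F E ((γ : Matrix (Fin n) (Fin n) F) (Fin.castLE hρn i) l)) *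
      X (l, j)
  have h1 : (gt (E := E) hρn (γ : Matrix (Fin n) (Fin n) F)).det =
      algebraMap (PR E n ρ) (LR E n ρ) M.det := by
    rw [RingHom.map_det]
    congr 1
    ext1 i j
    simp only [gt, M, RingHom.mapMatrix_apply, Matrix.map_apply, Matrix.of_apply, map_sum,
      map_mul]
    apply Finset.sum_congr rfl
    intro l _
    rw [IsScalarTower.algebraMap_apply F E (LR E n ρ),
      IsScalarTower.algebraMap_apply E (PR E n ρ) (LR E n ρ)]
    rfl
  rw [h1, Ne, FaithfulSMul.algebraMap_eq_zero_iff]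
  intro h
  let φ : PR E n ρ →+* E := eval fun u => algebraMap F E (γ' u.1 (Fin.castLE hρn u.2))
  have h2 : φ M.det = 1 := by
    rw [RingHom.map_det]
    have h3 : φ.mapMatrix M = 1 := by
      ext1 i j
      rw [RingHom.mapMatrix_apply, Matrix.map_apply, Matrix.one_apply]
      simp only [M, Matrix.of_apply, map_sum, map_mul, φ, eval_C, eval_X]
      simp only [← map_mul, ← map_sum]
      have h4 : ∑ l, (γ : Matrix (Fin n) (Fin n) F) (Fin.castLE hρn i) l *
          γ' l (Fin.castLE hρn j) = (1 : Matrix (Fin n) (Fin n) F) (Fin.castLE hρn i)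
            (Fin.castLE hρn j) := by
        have h5 : (γ : Matrix (Fin n) (Fin n) F) * γ' = 1 := by
          change ((γ * γ⁻¹ : Matrix.GeneralLinearGroup (Fin n) F) : Matrix (Fin n) (Fin n) F) = 1
          rw [mul_inv_cancel]
          rfl
        rw [← Matrix.mul_apply, h5]
      rw [h4, Matrix.one_apply]
      by_cases hij : i = j
      · rw [if_pos hij, if_pos (congrArg _ hij), map_one]
      · rw [if_neg hij, if_neg fun h => hij (Fin.castLE_injective hρn h), map_zero]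
    rw [h3, Matrix.det_one]
  rw [h, map_zero] at h2
  exact zero_ne_one h2

/-- The indices of the charts. -/
abbrev T0 (w : Matrix (Fin ρ) (Fin m) E) : Type :=
  {e : Fin ρ → Fin m // (Ue w e).det ≠ 0}

/-- The coordinate rings of the charts of the subvariety of the Grassmannian. -/
noncomputable def RE (k : Type u) [Field k] {E : Type u} [Field E] [Algebra k E] {ρ m : ℕ}
    (w : Matrix (Fin ρ) (Fin m) E) (e : Fin ρ → Fin m) : Subalgebra k E :=
  Algebra.adjoin k (Set.range fun u : Fin ρ × Fin m => We w e u.1 u.2)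

/-- The chart rings. -/
noncomputable def R0 (k : Type u) [Field k] {E : Type u} [Field E] [Algebra k E] {ρ m : ℕ}
    (n : ℕ) {w : Matrix (Fin ρ) (Fin m) E} (t : T0 w) : Subalgebra k (LR E n ρ) :=
  (RE k w t.1).map (IsScalarTower.toAlgHom k E (LR E n ρ))

lemma R0_eq (t : T0 w) : R0 k n t = Algebra.adjoin k
    (Set.range fun u : Fin ρ × Fin m => algebraMap E (LR E n ρ) (We w t.1 u.1 u.2)) := by
  rw [R0, RE, AlgHom.map_adjoin, ← Set.range_comp]
  rfl

lemma mem_R0 {t : T0 w} {a : E} (ha : a ∈ RE k w t.1) : algebraMap E (LR E n ρ) a ∈ R0 k n t :=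
  ⟨a, ha, rfl⟩

lemma We_mem (t : T0 w) (l : Fin ρ) (j : Fin m) :
    algebraMap E (LR E n ρ) (We w t.1 l j) ∈ R0 k n t :=
  mem_R0 (Algebra.subset_adjoin ⟨(l, j), rfl⟩)

lemma det_We_mem (t : T0 w) (e' : Fin ρ → Fin m) :
    algebraMap E (LR E n ρ) ((We w t.1).submatrix id e').det ∈ R0 k n t :=
  mem_R0 (det_mem _ _ fun i j => Algebra.subset_adjoin ⟨(i, e' j), rfl⟩)

lemma smooth_R0 {t : T0 w} (h : Algebra.Smooth k (RE k w t.1)) :
    Algebra.Smooth k (R0 k n t) := by
  have e : RE k w t.1 ≃ₐ[k] R0 k n t := (RE k w t.1).equivMapOfInjective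
    (IsScalarTower.toAlgHom k E (LR E n ρ)) (algebraMap E (LR E n ρ)).injective
  exact Algebra.Smooth.of_equiv e

lemma det_Ue_wL (e : Fin ρ → Fin m) : (Ue (wL p r n w) e).det =
    algebraMap E (LR E n ρ) (Ue w e).det ^ (p ^ r) := by
  rw [wL_eq, det_Ue_map, fE_apply]

lemma We_wL (t : T0 w) (l : Fin ρ) (j : Fin m) : We (wL p r n w) t.1 l j =
    algebraMap E (LR E n ρ) (We w t.1 l j) ^ (p ^ r) := by
  rw [wL_eq, We_map _ _ _ t.2, fE_apply]

section hh

variable (F p r) in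
/-- The equations of the complements of the charts. -/
noncomputable def H0 [DecidableEq F] (hρn : ρ ≤ n) (t : T0 w) : LR E n ρ :=
  ∏ γ : Matrix.GeneralLinearGroup (Fin n) F,
    (Ue (gx hρn (γ : Matrix (Fin n) (Fin n) F) (wq (p ^ r) w)) t.1).det

variable [DecidableEq F] (hρn : ρ ≤ n)

lemma det_gx' (γ : Matrix (Fin n) (Fin n) F) (e : Fin ρ → Fin m) :
    (Ue (gx hρn γ (wq (p ^ r) w)) e).det = (gt (E := E) hρn γ).det *
      algebraMap E (LR E n ρ) (Ue w e).det ^ (p ^ r) := by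
  rw [det_gx, ← det_Ue_wL]
  rfl

lemma det_gx_ne (γ : Matrix.GeneralLinearGroup (Fin n) F) (t : T0 w) :
    (Ue (gx hρn (γ : Matrix (Fin n) (Fin n) F) (wq (p ^ r) w)) t.1).det ≠ 0 := by
  rw [det_gx']
  exact mul_ne_zero (det_gt_ne hρn γ) (pow_ne_zero _
    ((FaithfulSMul.algebraMap_eq_zero_iff _ _).not.2 t.2))

lemma H0_ne (t : T0 w) : H0 F p r hρn t ≠ 0 := by
  rw [H0, Finset.prod_ne_zero_iff]
  intro γ _
  exact det_gx_ne hρn γ t

lemma det_gx_mem (γ : Matrix (Fin n) (Fin n) F) (e : Fin ρ → Fin m) :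
    (Ue (gx hρn γ (wq (p ^ r) w)) e).det ∈ BB k p r n w := by
  refine det_mem _ _ fun i j => ?_
  change gx hρn γ (wq (p ^ r) w) i (e j) ∈ _
  simp only [gx, Matrix.of_apply]
  refine Subalgebra.sum_mem _ fun l _ => Subalgebra.mul_mem _ ?_ (xq_mem_BB _ _ _)
  rw [IsScalarTower.algebraMap_apply F k (LR E n ρ)]
  exact Subalgebra.algebraMap_mem _ _

lemma H0_mem (t : T0 w) : H0 F p r hρn t ∈ BB k p r n w :=
  Subalgebra.prod_mem _ fun _ _ => det_gx_mem hρn _ _

variable (F) in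
/-- The order of the group. -/
noncomputable def NN (n : ℕ) : ℕ := Fintype.card (Matrix.GeneralLinearGroup (Fin n) F)

lemma NN_pos : 0 < NN F n := Fintype.card_pos

lemma H0_div (t t' : T0 w) : H0 F p r hρn t' / H0 F p r hρn t =
    algebraMap E (LR E n ρ) ((We w t.1).submatrix id t'.1).det ^ (p ^ r * NN F n) := by
  rw [H0, H0, ← Finset.prod_div_distrib, NN, ← Finset.card_univ, pow_mul, ← Finset.prod_const]
  apply Finset.prod_congr rfl
  intro γ _
  rw [det_gx', det_gx', mul_div_mul_left _ _ (det_gt_ne hρn γ), ← div_pow, ← map_div₀, det_Ue t.2]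

lemma inv_mem (t t' : T0 w) :
    (algebraMap E (LR E n ρ) ((We w t.1).submatrix id t'.1).det)⁻¹ ∈
      Loc (R0 k n t) (H0 F p r hρn t' / H0 F p r hρn t) := by
  have h1 : algebraMap E (LR E n ρ) ((We w t.1).submatrix id t'.1).det ≠ 0 := by
    rw [Ne, FaithfulSMul.algebraMap_eq_zero_iff, ← det_Ue t.2]
    exact div_ne_zero t'.2 t.2
  have hpos : 0 < p ^ r * NN F n := Nat.mul_pos (qpos p r) NN_pos
  have h2 : (algebraMap E (LR E n ρ) ((We w t.1).submatrix id t'.1).det)⁻¹ =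
      algebraMap E (LR E n ρ) ((We w t.1).submatrix id t'.1).det ^ (p ^ r * NN F n - 1) *
        (H0 F p r hρn t' / H0 F p r hρn t)⁻¹ := by
    obtain ⟨N, hN⟩ : ∃ N, p ^ r * NN F n = N + 1 := ⟨_, (Nat.sub_add_cancel hpos).symm⟩
    rw [H0_div, eq_mul_inv_iff_mul_eq₀ (pow_ne_zero _ h1), hN, Nat.add_sub_cancel,
      pow_succ', ← mul_assoc, inv_mul_cancel₀ h1, one_mul]
  rw [h2]
  exact Subalgebra.mul_mem _ (le_loc _ _ (Subalgebra.pow_mem _ (det_We_mem t _) _))
    (inv_mem_loc _ _)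

lemma R0_le (t t' : T0 w) : R0 k n t' ≤ Loc (R0 k n t) (H0 F p r hρn t' / H0 F p r hρn t) := by
  rw [R0_eq t', Algebra.adjoin_le_iff]
  rintro _ ⟨⟨l, j⟩, rfl⟩
  simp only
  rw [We_trans t.2 t'.2, Matrix.mul_apply, map_sum]
  refine Subalgebra.sum_mem _ fun i _ => ?_
  rw [map_mul]
  refine Subalgebra.mul_mem _ ?_ (le_loc _ _ (We_mem t _ _))
  rw [Matrix.inv_def, Matrix.smul_apply, smul_eq_mul, map_mul]
  refine Subalgebra.mul_mem _ ?_ (le_loc _ _ ?_)
  · rw [Ring.inverse_eq_inv', map_inv₀]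
    exact inv_mem hρn t t'
  · have h1 : ∀ i j, (We w t.1).submatrix id t'.1 i j ∈ RE k w t.1 :=
      fun i j => Algebra.subset_adjoin ⟨(i, t'.1 j), rfl⟩
    exact mem_R0 (adjugate_mem _ _ h1 _ _)

lemma R0_dn (t : T0 w) : R0 k n t ≤ Loc (BB k p r n w) (H0 F p r hρn t) := by
  classical
  rw [R0_eq t, Algebra.adjoin_le_iff]
  rintro _ ⟨⟨l, j⟩, rfl⟩
  simp only
  let D : Matrix.GeneralLinearGroup (Fin n) F → LR E n ρ := fun γ =>
    (Ue (gx hρn (γ : Matrix (Fin n) (Fin n) F) (wq (p ^ r) w)) t.1).det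
  have hD : ∀ γ, D γ ≠ 0 := fun γ => det_gx_ne hρn γ t
  have h1 : H0 F p r hρn t = D 1 * ∏ γ ∈ Finset.univ.erase 1, D γ :=
    (Finset.mul_prod_erase Finset.univ D (Finset.mem_univ 1)).symm
  have h2 : (D 1)⁻¹ = (∏ γ ∈ Finset.univ.erase 1, D γ) * (H0 F p r hρn t)⁻¹ := by
    rw [h1, mul_inv, mul_left_comm, mul_inv_cancel₀, mul_one]
    exact Finset.prod_ne_zero_iff.2 fun γ _ => hD γ
  have h3 : (D 1)⁻¹ ∈ Loc (BB k p r n w) (H0 F p r hρn t) := by
    rw [h2]
    exact Subalgebra.mul_mem _ (le_loc _ _ (Subalgebra.prod_mem _ fun γ _ => det_gx_mem hρn _ _))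
      (inv_mem_loc _ _)
  -- the numerator
  let g1 := gt (E := E) hρn ((1 : Matrix.GeneralLinearGroup (Fin n) F) : Matrix (Fin n) (Fin n) F)
  let u := algebraMap E (LR E n ρ) (Ue w t.1).det
  let u' := algebraMap E (LR E n ρ) (Ue w (Function.update t.1 l j)).det
  have hu : u ≠ 0 := (FaithfulSMul.algebraMap_eq_zero_iff _ _).not.2 t.2
  have hg1 : g1.det ≠ 0 := det_gt_ne hρn 1
  have hD1 : D 1 = g1.det * u ^ (p ^ r) := det_gx' hρn _ _
  obtain ⟨Q, hQ⟩ : ∃ Q, p ^ r = Q + 1 := ⟨_, (Nat.sub_add_cancel (qpos p r)).symm⟩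
  have h4 : algebraMap E (LR E n ρ) (We w t.1 l j) = (g1.det * (u' * u ^ Q)) * (D 1)⁻¹ := by
    rw [We_eq_div t.2, map_div₀, hD1, hQ, pow_succ]
    change u' / u = _
    field_simp
  rw [h4]
  refine Subalgebra.mul_mem _ (le_loc _ _ ?_) h3
  rw [mem_BB]
  have h5 : ∀ a b, iL E p r n ρ (g1 a b) = g1 a b ^ (p ^ r) := by
    intro a b
    have h6 : g1 a b = tL E n ρ (Fin.castLE hρn a) b := by
      simp only [g1, gt, Matrix.of_apply, Units.val_one]
      rw [Finset.sum_eq_single (Fin.castLE hρn a)]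
      · rw [Matrix.one_apply_eq, map_one, one_mul]
      · intro l _ hl
        rw [Matrix.one_apply_ne (Ne.symm hl), map_zero, zero_mul]
      · intro h
        exact absurd (Finset.mem_univ _) h
    rw [h6, iL_tL]
  have hchar : CharP (LR E n ρ) p := charP_of_injective_algebraMap
    (algebraMap E (LR E n ρ)).injective p
  have h7 : iL E p r n ρ g1.det = g1.det ^ (p ^ r) := by
    have h8 : (iL E p r n ρ) g1.det = ((iL E p r n ρ).toRingHom.mapMatrix g1).det :=
      RingHom.map_det _ _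
    rw [h8, ← iterateFrobenius_def p r g1.det, RingHom.map_det]
    congr 1
    ext1 a b
    rw [RingHom.mapMatrix_apply, Matrix.map_apply, RingHom.mapMatrix_apply, Matrix.map_apply,
      iterateFrobenius_def]
    exact h5 a b
  have h9 : iL E p r n ρ (g1.det * (u' * u ^ Q)) = (g1.det * u') * (g1.det * u) ^ Q := by
    rw [map_mul, map_mul, map_pow, h7, AlgHom.commutes, AlgHom.commutes, hQ]
    change g1.det ^ (Q + 1) * (u' * u ^ Q) = _
    ring
  have h10 : ∀ e : Fin ρ → Fin m, g1.det * algebraMap E (LR E n ρ) (Ue w e).det ∈ Bx k n w := by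
    intro e
    have h11 := det_gx hρn ((1 : Matrix.GeneralLinearGroup (Fin n) F) : Matrix (Fin n) (Fin n) F)
      w e
    rw [det_Ue_map] at h11
    change g1.det * _ ∈ _
    rw [← h11]
    refine det_mem _ _ fun i j => ?_
    change gx hρn _ w i (e j) ∈ _
    simp only [gx, Matrix.of_apply]
    refine Subalgebra.sum_mem _ fun l _ => Subalgebra.mul_mem _ ?_ (xL_mem _ _ _)
    rw [IsScalarTower.algebraMap_apply F k (LR E n ρ)]
    exact Subalgebra.algebraMap_mem _ _
  rw [h9]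
  exact Subalgebra.mul_mem _ (h10 _) (Subalgebra.pow_mem _ (h10 _) _)

lemma R0_cv (hw : ∃ e, (Ue w e).det ≠ 0) (V : ValuationSubring (LR E n ρ))
    (hV : ∀ a ∈ BB k p r n w, a ∈ V) : ∃ t : T0 w, ∀ a ∈ R0 k n t, a ∈ V := by
  classical
  have hVk : ∀ c' : k, algebraMap k (LR E n ρ) c' ∈ V :=
    fun c' => hV _ (Subalgebra.algebraMap_mem _ _)
  obtain ⟨e0, he0⟩ := hw
  obtain ⟨e, -, he⟩ := Finset.exists_max_image
    (Finset.univ : Finset (Fin ρ → Fin m))
    (fun e => V.valuation (algebraMap E (LR E n ρ) (Ue w e).det)) ⟨e0, Finset.mem_univ _⟩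
  have hne : (Ue w e).det ≠ 0 := by
    intro h
    have h1 := he e0 (Finset.mem_univ _)
    simp only [h, map_zero, le_zero_iff, Valuation.zero_iff] at h1
    exact he0 ((FaithfulSMul.algebraMap_eq_zero_iff _ _).1 h1)
  refine ⟨⟨e, hne⟩, ?_⟩
  have hle : R0 k n (⟨e, hne⟩ : T0 w) ≤ valAlg V hVk := by
    rw [R0_eq, Algebra.adjoin_le_iff]
    rintro _ ⟨⟨l, j⟩, rfl⟩
    change algebraMap E (LR E n ρ) (We w e l j) ∈ V
    rw [We_eq_div hne, ← ValuationSubring.valuation_le_one_iff, map_div₀, map_div₀]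
    exact div_le_one_of_le₀ (he _ (Finset.mem_univ _)) zero_le
  exact fun a ha => hle ha

/-- The initial stage. -/
theorem stage0 (hw : ∃ e, (Ue w e).det ≠ 0) : Stage F (BB k p r n w) (Xv F (wL p r n w)) ⊥ 0
    (fun t : T0 w => R0 k n t) (fun t => H0 F p r hρn t) fun t => re F (wL p r n w) t.1 :=
  stage_of (fun t => by
      rw [det_Ue_wL]
      exact pow_ne_zero _ ((FaithfulSMul.algebraMap_eq_zero_iff _ _).not.2 t.2))
    (fun t l j => by
      rw [We_wL]
      exact Subalgebra.pow_mem _ (We_mem t l j) _) (H0_ne hρn) (H0_mem hρn)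
    (fun t t' => by
      rw [H0_div]
      exact Subalgebra.pow_mem _ (det_We_mem t _) _) (R0_le hρn) (R0_dn hρn) (R0_cv hw)

end hh

end Pool.Agent.J6H83.Nr
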