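import Pool.Agent.J6H83.Dv.Mat

/-!
The function field of the variety of the matrices `t w`, and its subfield generated by the powers
of the entries of `t`.
-/

set_option autoImplicit false
set_option linter.unusedSectionVars false

open MvPolynomial Matrix Cardinal

universe u v

namespace Pool.Agent.J6H83.Nr

/-- The polynomial ring. -/
abbrev PR (E : Type u) [Field E] (n ρ : ℕ) := MvPolynomial (Fin n × Fin ρ) E

/-- The function field. -/
abbrev LR (E : Type u) [Field E] (n ρ : ℕ) := FractionRing (PR E n ρ)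

section frob

variable (E : Type u) [Field E] (p r : ℕ) [hp : Fact p.Prime] [hc : CharP E p] (n ρ : ℕ)

/-- The Frobenius of the coefficients. -/
noncomputable def kap : PR E n ρ →+* PR E n ρ := MvPolynomial.map (iterateFrobenius E p r)

variable {E n ρ}

lemma kap_C (a : E) : kap E p r n ρ (C a) = C (a ^ (p ^ r)) := by
  rw [kap, map_C, iterateFrobenius_def]

lemma kap_X (u : Fin n × Fin ρ) : kap E p r n ρ (X u) = X u := by
  rw [kap, map_X]

lemma kap_expand (f : PR E n ρ) : kap E p r n ρ (expand (p ^ r) f) = f ^ (p ^ r) := by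
  have h : (kap E p r n ρ).comp (expand (p ^ r)).toRingHom =
      iterateFrobenius (PR E n ρ) p r := by
    apply MvPolynomial.ringHom_ext
    · intro a
      change kap E p r n ρ (expand (p ^ r) (C a)) = _
      rw [expand_C, kap_C, iterateFrobenius_def, C_pow]
    · intro u
      change kap E p r n ρ (expand (p ^ r) (X u)) = _
      rw [expand_X, map_pow, kap_X, iterateFrobenius_def]
  exact DFunLike.congr_fun h f

lemma expand_kap (f : PR E n ρ) : expand (p ^ r) (kap E p r n ρ f) = f ^ (p ^ r) := by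
  have h : (expand (p ^ r)).toRingHom.comp (kap E p r n ρ) =
      iterateFrobenius (PR E n ρ) p r := by
    apply MvPolynomial.ringHom_ext
    · intro a
      change expand (p ^ r) (kap E p r n ρ (C a)) = _
      rw [kap_C, expand_C, iterateFrobenius_def, C_pow]
    · intro u
      change expand (p ^ r) (kap E p r n ρ (X u)) = _
      rw [kap_X, expand_X, iterateFrobenius_def]
  exact DFunLike.congr_fun h f

lemma qpos : 0 < p ^ r := pow_pos hp.out.pos r

lemma kap_injective : Function.Injective (kap E p r n ρ) := by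
  intro a b h
  have h1 := congrArg (expand (p ^ r)) h
  rw [expand_kap, expand_kap, ← iterateFrobenius_def, ← iterateFrobenius_def] at h1
  exact iterateFrobenius_inj (PR E n ρ) p r h1

lemma expand_injective' : Function.Injective (expand (p ^ r) : PR E n ρ →ₐ[E] PR E n ρ) :=
  expand_injective (qpos p r)

variable (E n ρ)

/-- The embedding of the subfield, as a ring homomorphism. -/
noncomputable def iR : LR E n ρ →+* LR E n ρ :=
  IsFractionRing.lift (A := PR E n ρ) (K := LR E n ρ)
    (g := (algebraMap (PR E n ρ) (LR E n ρ)).comp (expand (p ^ r)).toRingHom)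
    ((IsFractionRing.injective (PR E n ρ) (LR E n ρ)).comp (expand_injective' p r))

lemma iR_algebraMap (f : PR E n ρ) : iR E p r n ρ (algebraMap (PR E n ρ) (LR E n ρ) f) =
    algebraMap (PR E n ρ) (LR E n ρ) (expand (p ^ r) f) :=
  IsFractionRing.lift_algebraMap _ _

/-- The embedding of the subfield. -/
noncomputable def iL : LR E n ρ →ₐ[E] LR E n ρ :=
  { iR E p r n ρ with
    commutes' := by
      intro a
      change iR E p r n ρ (algebraMap E (LR E n ρ) a) = _
      rw [IsScalarTower.algebraMap_apply E (PR E n ρ) (LR E n ρ), iR_algebraMap,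
        MvPolynomial.algebraMap_eq, expand_C] }

/-- The Frobenius relative to the entries of `t`. -/
noncomputable def kL : LR E n ρ →+* LR E n ρ :=
  IsFractionRing.lift (A := PR E n ρ) (K := LR E n ρ)
    (g := (algebraMap (PR E n ρ) (LR E n ρ)).comp (kap E p r n ρ))
    ((IsFractionRing.injective (PR E n ρ) (LR E n ρ)).comp (kap_injective p r))

variable {E n ρ}

lemma iL_algebraMap (f : PR E n ρ) : iL E p r n ρ (algebraMap (PR E n ρ) (LR E n ρ) f) =
    algebraMap (PR E n ρ) (LR E n ρ) (expand (p ^ r) f) :=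
  iR_algebraMap E p r n ρ f

lemma kL_algebraMap (f : PR E n ρ) : kL E p r n ρ (algebraMap (PR E n ρ) (LR E n ρ) f) =
    algebraMap (PR E n ρ) (LR E n ρ) (kap E p r n ρ f) :=
  IsFractionRing.lift_algebraMap _ _

lemma kL_iL (b : LR E n ρ) : kL E p r n ρ (iL E p r n ρ b) = b ^ (p ^ r) := by
  obtain ⟨x, y, -, rfl⟩ := IsFractionRing.div_surjective (A := PR E n ρ) b
  rw [map_div₀, map_div₀, div_pow, iL_algebraMap, iL_algebraMap, kL_algebraMap, kL_algebraMap,
    kap_expand, kap_expand, map_pow, map_pow]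

lemma iL_kL (b : LR E n ρ) : iL E p r n ρ (kL E p r n ρ b) = b ^ (p ^ r) := by
  obtain ⟨x, y, -, rfl⟩ := IsFractionRing.div_surjective (A := PR E n ρ) b
  rw [map_div₀, map_div₀, div_pow, kL_algebraMap, kL_algebraMap, iL_algebraMap, iL_algebraMap,
    expand_kap, expand_kap, map_pow, map_pow]

lemma kL_E (a : E) : kL E p r n ρ (algebraMap E _ a) = algebraMap E _ (a ^ (p ^ r)) := by
  rw [IsScalarTower.algebraMap_apply E (PR E n ρ) (LR E n ρ), kL_algebraMap,
    MvPolynomial.algebraMap_eq, kap_C, ← MvPolynomial.algebraMap_eq,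
    ← IsScalarTower.algebraMap_apply]

lemma iL_injective : Function.Injective (iL E p r n ρ) := (iL E p r n ρ).toRingHom.injective

/-- Elements whose images are polynomials are polynomials. -/
lemma exists_of_iL {b : LR E n ρ} {f : PR E n ρ} (h : iL E p r n ρ b = algebraMap _ _ f) :
    ∃ g : PR E n ρ, algebraMap _ _ g = b ∧ expand (p ^ r) g = f := by
  have h1 : b ^ (p ^ r) = algebraMap _ _ (kap E p r n ρ f) := by
    rw [← kL_iL, h, kL_algebraMap]
  have h2 : IsIntegral (PR E n ρ) b := by
    refine IsIntegral.of_pow (qpos p r) ?_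
    rw [h1]
    exact isIntegral_algebraMap
  obtain ⟨g, rfl⟩ := IsIntegrallyClosed.isIntegral_iff.1 h2
  refine ⟨g, rfl, ?_⟩
  rw [iL_algebraMap] at h
  exact IsFractionRing.injective (PR E n ρ) (LR E n ρ) h

end frob

section mats

variable {E : Type u} [Field E] {n ρ m : ℕ}

/-- The generic matrix `t`. -/
noncomputable def tL (E : Type u) [Field E] (n ρ : ℕ) : Matrix (Fin n) (Fin ρ) (LR E n ρ) :=
  Matrix.of fun i l => algebraMap (PR E n ρ) (LR E n ρ) (X (i, l))

lemma tL_apply (i : Fin n) (l : Fin ρ) : tL E n ρ i l =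
    algebraMap (PR E n ρ) (LR E n ρ) (X (i, l)) := rfl

/-- The generic matrix `t w` over the polynomial ring. -/
noncomputable def xP (n : ℕ) (w : Matrix (Fin ρ) (Fin m) E) : Matrix (Fin n) (Fin m) (PR E n ρ) :=
  Matrix.of fun i j => ∑ l, X (i, l) * C (w l j)

/-- The generic matrix `t w`. -/
noncomputable def xL (n : ℕ) (w : Matrix (Fin ρ) (Fin m) E) : Matrix (Fin n) (Fin m) (LR E n ρ) :=
  tL E n ρ * w.map (algebraMap E (LR E n ρ))

lemma algebraMap_xP (w : Matrix (Fin ρ) (Fin m) E) (i : Fin n) (j : Fin m) :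
    algebraMap (PR E n ρ) (LR E n ρ) (xP n w i j) = xL n w i j := by
  rw [xL, Matrix.mul_apply, xP, Matrix.of_apply, map_sum]
  apply Finset.sum_congr rfl
  intro l _
  rw [map_mul, tL_apply, Matrix.map_apply,
    IsScalarTower.algebraMap_apply E (PR E n ρ) (LR E n ρ), MvPolynomial.algebraMap_eq]

/-- The matrix of the powers of the entries. -/
def wq (q : ℕ) (w : Matrix (Fin ρ) (Fin m) E) : Matrix (Fin ρ) (Fin m) E := fun l j => w l j ^ q

variable (p r : ℕ) [hp : Fact p.Prime] [hc : CharP E p]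

lemma kL_tL (i : Fin n) (l : Fin ρ) : kL E p r n ρ (tL E n ρ i l) = tL E n ρ i l := by
  rw [tL_apply, kL_algebraMap, kap_X]

lemma iL_tL (i : Fin n) (l : Fin ρ) : iL E p r n ρ (tL E n ρ i l) = tL E n ρ i l ^ (p ^ r) := by
  rw [tL_apply, iL_algebraMap, expand_X, map_pow]

lemma kL_xL (w : Matrix (Fin ρ) (Fin m) E) (i : Fin n) (j : Fin m) :
    kL E p r n ρ (xL n w i j) = xL n (wq (p ^ r) w) i j := by
  rw [xL, xL, Matrix.mul_apply, Matrix.mul_apply, map_sum]
  apply Finset.sum_congr rfl
  intro l _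
  rw [map_mul, kL_tL, Matrix.map_apply, Matrix.map_apply, kL_E, wq]

lemma iL_xL (w : Matrix (Fin ρ) (Fin m) E) (i : Fin n) (j : Fin m) :
    iL E p r n ρ (xL n (wq (p ^ r) w) i j) = xL n w i j ^ (p ^ r) := by
  rw [← kL_xL, iL_kL]

end mats

section alg

variable (k : Type u) [Field k] {E : Type u} [Field E] [Algebra k E] {n ρ m : ℕ}

/-- The algebra generated by the entries of `t w`. -/
noncomputable def Bx (n : ℕ) (w : Matrix (Fin ρ) (Fin m) E) : Subalgebra k (LR E n ρ) :=
  Algebra.adjoin k {a | ∃ i l, a = xL n w i l}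

variable {k} in
lemma xL_mem (w : Matrix (Fin ρ) (Fin m) E) (i : Fin n) (l : Fin m) : xL n w i l ∈ Bx k n w :=
  Algebra.subset_adjoin ⟨i, l, rfl⟩

variable (p r : ℕ) [hp : Fact p.Prime] [hc : CharP E p]

/-- The elements whose images are in the algebra generated by the entries of `t w`. -/
noncomputable def BB (n : ℕ) (w : Matrix (Fin ρ) (Fin m) E) : Subalgebra k (LR E n ρ) :=
  (Bx k n w).comap ((iL E p r n ρ).restrictScalars k)

variable {k p r}

lemma mem_BB {w : Matrix (Fin ρ) (Fin m) E} {b : LR E n ρ} :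
    b ∈ BB k p r n w ↔ iL E p r n ρ b ∈ Bx k n w := Iff.rfl

lemma pow_mem_of_BB {w : Matrix (Fin ρ) (Fin m) E} {b : LR E n ρ} (hb : b ∈ BB k p r n w) :
    b ^ (p ^ r) ∈ Bx k n (wq (p ^ r) w) := by
  rw [← kL_iL]
  rw [mem_BB] at hb
  generalize iL E p r n ρ b = c at hb
  induction hb using Algebra.adjoin_induction with
  | mem x hx =>
    obtain ⟨i, l, rfl⟩ := hx
    rw [kL_xL]
    exact xL_mem _ _ _
  | algebraMap c =>
    rw [IsScalarTower.algebraMap_apply k E, kL_E, ← map_pow, ← IsScalarTower.algebraMap_apply]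
    exact Subalgebra.algebraMap_mem _ _
  | add x y _ _ hx hy =>
    rw [map_add]
    exact Subalgebra.add_mem _ hx hy
  | mul x y _ _ hx hy =>
    rw [map_mul]
    exact Subalgebra.mul_mem _ hx hy

lemma xq_mem_BB (w : Matrix (Fin ρ) (Fin m) E) (i : Fin n) (l : Fin m) :
    xL n (wq (p ^ r) w) i l ∈ BB k p r n w := by
  rw [mem_BB, iL_xL]
  exact Subalgebra.pow_mem _ (xL_mem _ _ _) _

end alg

end Pool.Agent.J6H83.Nr
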