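import Pool.Agent.J6H83.Nr.Inv

/-!
The matrices `g` with `g ^ (q) ∈ Γ` form a group.
-/

set_option autoImplicit false
set_option linter.unusedSectionVars false

open Matrix

universe u v

namespace Pool.Agent.J6H83.Nr

open Pool.Agent.R837.FM
open Pool.Agent.J6H83.Pk (sum_pow_R)

variable {F : Type v} [Field F] [Fintype F] {k : Type u} [Field k] [Algebra F k]
  {p : ℕ} [hp : Fact p.Prime] [hc : CharP k p] {n r : ℕ}
  {R : Type u} [CommRing R] [Algebra k R]

/-- The image of a matrix over `F`. -/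
def mR (k R : Type u) [Field k] [Algebra F k] [CommRing R] [Algebra k R]
    (γ : Matrix (Fin n) (Fin n) F) : Matrix (Fin n) (Fin n) R :=
  γ.map ((algebraMap k R).comp (algebraMap F k))

lemma mR_mul (γ δ : Matrix (Fin n) (Fin n) F) : mR k R (γ * δ) = mR k R γ * mR k R δ :=
  Matrix.map_mul

/-- The matrix of the powers of the entries. -/
def pw (q : ℕ) (g : Matrix (Fin n) (Fin n) R) : Matrix (Fin n) (Fin n) R :=
  Matrix.of fun i j => g i j ^ q

include k hp hc in
lemma pw_mul (g h : Matrix (Fin n) (Fin n) R) :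
    pw (p ^ r) (g * h) = pw (p ^ r) g * pw (p ^ r) h := by
  ext1 i j
  rw [pw, Matrix.of_apply, Matrix.mul_apply, sum_pow_R k, Matrix.mul_apply]
  exact Finset.sum_congr rfl fun l _ => mul_pow _ _ _

include hp in
lemma pw_one : pw (p ^ r) (1 : Matrix (Fin n) (Fin n) R) = 1 := by
  ext1 i j
  rw [pw, Matrix.of_apply, Matrix.one_apply]
  split_ifs
  · exact one_pow _
  · exact zero_pow (pow_pos hp.out.pos r).ne'

include k hp hc in
lemma det_pw (g : Matrix (Fin n) (Fin n) R) : (pw (p ^ r) g).det = g.det ^ (p ^ r) := by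
  rcases subsingleton_or_nontrivial R with h0 | h0
  · exact Subsingleton.elim _ _
  · have : CharP R p := charP_of_injective_algebraMap (algebraMap k R).injective p
    rw [← iterateFrobenius_def, RingHom.map_det]
    rfl

variable (F k p r R) in
/-- The group of the points with values in `R`. -/
noncomputable def grpG (lv s : Fin n → ℕ) : Subgroup (Matrix.GeneralLinearGroup (Fin n) R) where
  carrier := {g | ∃ γ ∈ par F lv s, pw (p ^ r) (g : Matrix (Fin n) (Fin n) R) =
    mR k R (γ : Matrix (Fin n) (Fin n) F)}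
  mul_mem' := by
    rintro a b ⟨γ, hγ, h1⟩ ⟨δ, hδ, h2⟩
    refine ⟨γ * δ, (par F lv s).mul_mem hγ hδ, ?_⟩
    rw [Units.val_mul, pw_mul (k := k), h1, h2, Units.val_mul, mR_mul]
  one_mem' := by
    refine ⟨1, (par F lv s).one_mem, ?_⟩
    rw [Units.val_one, pw_one, Units.val_one, mR]
    ext1 i j
    rw [Matrix.map_apply, Matrix.one_apply, Matrix.one_apply]
    split_ifs
    · rw [map_one]
    · rw [map_zero]
  inv_mem' := by
    rintro a ⟨γ, hγ, h1⟩
    refine ⟨γ⁻¹, (par F lv s).inv_mem hγ, ?_⟩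
    have h2 : mR k R ((γ⁻¹ : Matrix.GeneralLinearGroup (Fin n) F) : Matrix (Fin n) (Fin n) F) *
        mR k R (γ : Matrix (Fin n) (Fin n) F) = 1 := by
      rw [← mR_mul, ← Units.val_mul, inv_mul_cancel, Units.val_one, mR]
      ext1 i j
      rw [Matrix.map_apply, Matrix.one_apply, Matrix.one_apply]
      split_ifs
      · rw [map_one]
      · rw [map_zero]
    have h3 : pw (p ^ r) (a : Matrix (Fin n) (Fin n) R) *
        pw (p ^ r) ((a⁻¹ : Matrix.GeneralLinearGroup (Fin n) R) : Matrix (Fin n) (Fin n) R) =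
          1 := by
      rw [← pw_mul (k := k), ← Units.val_mul, mul_inv_cancel, Units.val_one, pw_one]
    rw [h1] at h3
    calc _ = (mR k R ((γ⁻¹ : Matrix.GeneralLinearGroup (Fin n) F) : Matrix (Fin n) (Fin n) F) *
        mR k R (γ : Matrix (Fin n) (Fin n) F)) *
          pw (p ^ r) ((a⁻¹ : Matrix.GeneralLinearGroup (Fin n) R) :
            Matrix (Fin n) (Fin n) R) := by rw [h2, one_mul]
      _ = _ := by rw [Matrix.mul_assoc, h3, mul_one]

variable (k p r R) in
include hc in
/-- The matrices `g` with `g ^ (q) ∈ Γ` form a group. -/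
theorem exists_grp (lv s : Fin n → ℕ) :
    ∃ G : Subgroup (Matrix.GeneralLinearGroup (Fin n) R), ∀ g : Matrix (Fin n) (Fin n) R,
      IsG (F := F) k (p ^ r) lv s g ↔ ∃ a ∈ G, (a : Matrix (Fin n) (Fin n) R) = g := by
  refine ⟨grpG F k p r R lv s, fun g => ?_⟩
  constructor
  · rintro ⟨γ, hγ, hg⟩
    have h1 : pw (p ^ r) g = mR k R (γ : Matrix (Fin n) (Fin n) F) := by
      ext1 i j
      exact hg i j
    have h2 : IsUnit g.det := by
      have h3 : g.det ^ (p ^ r) = (mR k R (γ : Matrix (Fin n) (Fin n) F)).det := by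
        rw [← h1, det_pw (k := k)]
      have h4 : (mR k R (γ : Matrix (Fin n) (Fin n) F)).det =
          ((algebraMap k R).comp (algebraMap F k)) (γ : Matrix (Fin n) (Fin n) F).det := by
        rw [RingHom.map_det]
        rfl
      have h5 : IsUnit (g.det ^ (p ^ r)) := by
        rw [h3, h4]
        exact (IsUnit.mk0 _ γ.det_ne_zero).map _
      exact (isUnit_pow_iff (pow_pos hp.out.pos r).ne').1 h5
    exact ⟨Matrix.nonsingInvUnit g h2, ⟨γ, hγ, h1⟩, rfl⟩
  · rintro ⟨a, ⟨γ, hγ, h1⟩, rfl⟩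
    exact ⟨γ, hγ, fun i j => congrFun (congrFun h1 i) j⟩

end Pool.Agent.J6H83.Nr
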