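import Pool.Agent.J6H83.Nr.Cht
import Pool.Agent.J6H83.Pk.Grp
import Pool.Agent.J6H83.Pk.Inv
import Pool.Agent.R837.FM.Main

/-!
The invariants of the group schemes of the matrices `g` with `g ^ (q) ∈ Γ`.
-/

set_option autoImplicit false
set_option linter.unusedSectionVars false

open MvPolynomial Matrix Cardinal TensorProduct

universe u v

namespace Pool.Agent.J6H83.Nr

open Pool.Agent.R837.FM
open Pool.Agent.J6H83.Dv (Ue We)
open Pool.Agent.Y212.Fk (shift dvd_of_shift)
open Pool.Agent.J6H83.Pk (sum_pow_R)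

variable {F : Type v} [Field F] [Fintype F] {k : Type u} [Field k] [Algebra F k]
  {E : Type u} [Field E] [Algebra k E] [Algebra F E] [IsScalarTower F k E] {n ρ m : ℕ}
  {p r : ℕ} [hp : Fact p.Prime] [hc : CharP E p] {w : Matrix (Fin ρ) (Fin m) E}

/-- The value of a polynomial at a matrix. -/
noncomputable def ev {k : Type u} [Field k] {n m : ℕ} {R : Type u} [CommRing R] [Algebra k R]
    (x : Matrix (Fin n) (Fin m) R) : MvPolynomial (Fin n × Fin m) k →ₐ[k] R :=
  aeval fun u => x u.1 u.2

lemma ev_X {R : Type u} [CommRing R] [Algebra k R] (x : Matrix (Fin n) (Fin m) R) (i : Fin n)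
    (j : Fin m) : ev (k := k) x (X (i, j)) = x i j := by
  rw [ev, aeval_X]

lemma ev_map {R S : Type u} [CommRing R] [Algebra k R] [CommRing S] [Algebra k S] (φ : R →ₐ[k] S)
    (x : Matrix (Fin n) (Fin m) R) (f : MvPolynomial (Fin n × Fin m) k) :
    φ (ev x f) = ev (x.map φ) f := by
  have h : φ.comp (ev x) = ev (x.map φ) := by
    apply MvPolynomial.algHom_ext
    rintro ⟨i, j⟩
    rw [AlgHom.comp_apply, ev_X, ev_X, Matrix.map_apply]
  exact DFunLike.congr_fun h f

section cone

variable (k) (n) (w)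

/-- The restriction of polynomials to the cone. -/
noncomputable def Th : MvPolynomial (Fin n × Fin m) k →ₐ[k] PR E n ρ := ev (xP n w)

/-- The ideal of the cone. -/
noncomputable def coneI : Ideal (MvPolynomial (Fin n × Fin m) k) := RingHom.ker (Th k n w)

variable {k n w}

lemma mem_coneI {f : MvPolynomial (Fin n × Fin m) k} : f ∈ coneI k n w ↔ Th k n w f = 0 :=
  Iff.rfl

/-- Evaluation at `t w`. -/
lemma aeval_Th {S : Type u} [CommRing S] [Algebra k S] [Algebra E S] [IsScalarTower k E S]
    (t : Matrix (Fin n) (Fin ρ) S) (f : MvPolynomial (Fin n × Fin m) k) :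
    ev (k := E) t (Th k n w f) = ev (t * w.map (algebraMap E S)) f := by
  have h : ((ev (k := E) t).restrictScalars k).comp (Th k n w) =
      ev (t * w.map (algebraMap E S)) := by
    apply MvPolynomial.algHom_ext
    rintro ⟨i, j⟩
    rw [AlgHom.comp_apply, Th, ev_X, ev_X, Matrix.mul_apply, xP, Matrix.of_apply, map_sum]
    apply Finset.sum_congr rfl
    intro l _
    rw [map_mul, Matrix.map_apply]
    change ev (k := E) t (X (i, l)) * ev (k := E) t (C (w l j)) = _
    rw [ev_X]
    congr 1
    exact (ev (k := E) t).commutes _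
  exact DFunLike.congr_fun h f

end cone

section tau

variable (E ρ) in
/-- The action on the polynomial ring. -/
noncomputable def tau (g : Matrix (Fin n) (Fin n) F) : PR E n ρ →ₐ[E] PR E n ρ :=
  ev (Matrix.of fun i l => ∑ j, C (algebraMap F E (g i j)) * X (j, l))

lemma tau_X (g : Matrix (Fin n) (Fin n) F) (i : Fin n) (l : Fin ρ) :
    tau E ρ g (X (i, l)) = ∑ j, C (algebraMap F E (g i j)) * X (j, l) := by
  rw [tau, ev_X, Matrix.of_apply]

/-- The key evaluation. -/
lemma ev_mul_expand {S : Type u} [CommRing S] [Algebra k S] [Algebra E S] [IsScalarTower k E S]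
    (t : Matrix (Fin n) (Fin ρ) S) (g : Matrix (Fin n) (Fin n) S) (γ : Matrix (Fin n) (Fin n) F)
    (hg : ∀ i j, g i j ^ (p ^ r) = algebraMap E S (algebraMap F E (γ i j))) (b : PR E n ρ) :
    ev (k := E) (g * t) (expand (p ^ r) b) = ev (k := E) t (expand (p ^ r) (tau E ρ γ b)) := by
  have h : (ev (k := E) (g * t)).comp (expand (p ^ r)) =
      ((ev (k := E) t).comp (expand (p ^ r))).comp (tau E ρ γ) := by
    apply MvPolynomial.algHom_ext
    rintro ⟨i, l⟩
    rw [AlgHom.comp_apply, AlgHom.comp_apply, AlgHom.comp_apply, expand_X, map_pow, ev_X, tau_X,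
      Matrix.mul_apply, sum_pow_R E, map_sum, map_sum]
    apply Finset.sum_congr rfl
    intro j _
    rw [mul_pow, hg, map_mul, map_mul, expand_C, expand_X, map_pow, ev_X]
    congr 1
    exact ((ev (k := E) t).commutes _).symm
  exact DFunLike.congr_fun h b

end tau

section inv

/-- The points of the cone. -/
def IsPt (k : Type u) [Field k] {E : Type u} [Field E] [Algebra k E] {n ρ m : ℕ}
    (w : Matrix (Fin ρ) (Fin m) E) {R : Type u} [CommRing R] [Algebra k R]
    (x : Matrix (Fin n) (Fin m) R) : Prop := ∀ f ∈ coneI k n w, ev x f = 0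

/-- The condition for the points of the group scheme. -/
def IsG {F : Type v} [Field F] (k : Type u) [Field k] [Algebra F k] {n : ℕ} (q : ℕ)
    (lv s : Fin n → ℕ) {R : Type u} [CommRing R] [Algebra k R]
    (g : Matrix (Fin n) (Fin n) R) : Prop :=
  ∃ γ : Matrix.GeneralLinearGroup (Fin n) F, Cond lv s (γ : Matrix (Fin n) (Fin n) F) ∧
    ∀ i j, g i j ^ q = algebraMap k R (algebraMap F k ((γ : Matrix (Fin n) (Fin n) F) i j))

variable (F k n w) in
/-- The polynomials whose classes are invariant. -/
def pre (q : ℕ) (lv s : Fin n → ℕ) : Subalgebra k (MvPolynomial (Fin n × Fin m) k) where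
  carrier := {f | ∀ (R : Type u) [CommRing R] [Algebra k R] (x : Matrix (Fin n) (Fin m) R)
    (g : Matrix (Fin n) (Fin n) R), IsPt k w x → IsG (F := F) k q lv s g →
      ev (g * x) f = ev x f}
  mul_mem' := by
    intro a b ha hb R _ _ x g hx hg
    rw [map_mul, map_mul, ha R x g hx hg, hb R x g hx hg]
  add_mem' := by
    intro a b ha hb R _ _ x g hx hg
    rw [map_add, map_add, ha R x g hx hg, hb R x g hx hg]
  algebraMap_mem' := by
    intro a R _ _ x g _ _
    rw [AlgHom.commutes, AlgHom.commutes]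

lemma isPt_map {S : Type u} [CommRing S] [Algebra k S] [Algebra E S] [IsScalarTower k E S]
    (t : Matrix (Fin n) (Fin ρ) S) : IsPt k w (t * w.map (algebraMap E S)) := by
  intro f hf
  rw [← aeval_Th, mem_coneI.1 hf, map_zero]

end inv

section first

variable (hρn : ρ ≤ n)

/-- The vector `s` with `s t = e_l0`. -/
noncomputable def sv (E : Type u) [Field E] {n ρ : ℕ} (hρn : ρ ≤ n) (l0 : Fin ρ) (j : Fin n) :
    LR E n ρ := if h : (j : ℕ) < ρ then
      ((tL E n ρ).submatrix (Fin.castLE hρn) id)⁻¹ l0 ⟨j, h⟩ else 0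

include F in
lemma det_tt_ne : ((tL E n ρ).submatrix (Fin.castLE hρn) id).det ≠ 0 := by
  have h1 := det_gt_ne (F := F) (E := E) hρn (1 : Matrix.GeneralLinearGroup (Fin n) F)
  have h2 : gt (E := E) hρn
      ((1 : Matrix.GeneralLinearGroup (Fin n) F) : Matrix (Fin n) (Fin n) F) =
        (tL E n ρ).submatrix (Fin.castLE hρn) id := by
    ext1 i j
    rw [Units.val_one]
    simp only [gt, Matrix.of_apply, Matrix.submatrix_apply, id]
    rw [Finset.sum_eq_single (Fin.castLE hρn i)]
    · rw [Matrix.one_apply_eq, map_one, one_mul]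
    · intro l _ hl
      rw [Matrix.one_apply_ne (Ne.symm hl), map_zero, zero_mul]
    · intro h
      exact absurd (Finset.mem_univ _) h
  rwa [h2] at h1

include F in
lemma sv_mul (l0 l : Fin ρ) : ∑ j, sv E hρn l0 j * tL E n ρ j l = if l0 = l then 1 else 0 := by
  have h1 : ∑ j, sv E hρn l0 j * tL E n ρ j l =
      ∑ j : Fin ρ, ((tL E n ρ).submatrix (Fin.castLE hρn) id)⁻¹ l0 j *
        tL E n ρ (Fin.castLE hρn j) l := by
    rw [← Finset.sum_subset (Finset.subset_univ
      (Finset.univ.map ⟨Fin.castLE hρn, Fin.castLE_injective hρn⟩))]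
    · rw [Finset.sum_map]
      apply Finset.sum_congr rfl
      intro j _
      congr 1
      change sv E hρn l0 (Fin.castLE hρn j) = _
      rw [sv, dif_pos (show ((Fin.castLE hρn j : Fin n) : ℕ) < ρ from j.2)]
      rfl
    · intro j _ hj
      rw [sv, dif_neg, zero_mul]
      intro h
      apply hj
      rw [Finset.mem_map]
      exact ⟨⟨j, h⟩, Finset.mem_univ _, rfl⟩
  rw [h1]
  have h2 := Matrix.nonsing_inv_mul _ (IsUnit.mk0 _ (det_tt_ne (F := F) (E := E) hρn))
  have h3 := congrFun (congrFun h2 l0) l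
  rwa [Matrix.mul_apply, Matrix.one_apply] at h3

/-- The one parameter family of matrices. -/
noncomputable def gT (E : Type u) [Field E] {n ρ : ℕ} (hρn : ρ ≤ n) (i0 : Fin n) (l0 : Fin ρ) :
    Matrix (Fin n) (Fin n) (Polynomial (LR E n ρ)) :=
  Matrix.of fun i j => Polynomial.C (if i = j then 1 else 0) +
    Polynomial.X * Polynomial.C (if i = i0 then sv E hρn l0 j else 0)

include F in
lemma gT_mul (i0 : Fin n) (l0 : Fin ρ) :
    gT E hρn i0 l0 * (tL E n ρ).map Polynomial.C = Matrix.of fun i l =>
      Polynomial.C (tL E n ρ i l) + if (i, l) = (i0, l0) then Polynomial.X else 0 := by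
  ext1 i l
  rw [Matrix.mul_apply, Matrix.of_apply]
  have h1 : ∀ j, gT E hρn i0 l0 i j * (tL E n ρ).map Polynomial.C j l =
      Polynomial.C ((if i = j then 1 else 0) * tL E n ρ j l) +
        Polynomial.X * Polynomial.C ((if i = i0 then sv E hρn l0 j else 0) *
          tL E n ρ j l) := by
    intro j
    rw [gT, Matrix.of_apply, Matrix.map_apply, map_mul, map_mul]
    ring
  rw [Finset.sum_congr rfl fun j _ => h1 j, Finset.sum_add_distrib, ← map_sum, ← Finset.mul_sum,
    ← map_sum]
  congr 1
  · congr 1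
    simp
  · by_cases hi : i = i0
    · simp only [if_pos hi]
      rw [sv_mul (F := F)]
      by_cases hl : l0 = l
      · rw [if_pos hl, if_pos (Prod.ext hi hl.symm), map_one, mul_one]
      · rw [if_neg hl, if_neg fun h => hl (congrArg Prod.snd h).symm, map_zero, mul_zero]
    · simp only [if_neg hi, zero_mul, Finset.sum_const_zero, map_zero, mul_zero]
      rw [if_neg fun h => hi (congrArg Prod.fst h)]

lemma ev_shift (i0 : Fin n) (l0 : Fin ρ) (b : PR E n ρ) :
    ev (k := E) (Matrix.of fun i l => Polynomial.C (tL E n ρ i l) +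
      if (i, l) = (i0, l0) then Polynomial.X else 0) b =
    Polynomial.mapRingHom (algebraMap (PR E n ρ) (LR E n ρ)) (shift (i0, l0) b) := by
  have h : (ev (k := E) (Matrix.of fun i l => Polynomial.C (tL E n ρ i l) +
      if (i, l) = (i0, l0) then Polynomial.X else 0)).toRingHom =
    (Polynomial.mapRingHom (algebraMap (PR E n ρ) (LR E n ρ))).comp
      (shift (i0, l0) : PR E n ρ →ₐ[E] _).toRingHom := by
    apply MvPolynomial.ringHom_ext
    · intro a
      change ev (k := E) _ (C a) = Polynomial.mapRingHom _ (shift (i0, l0) (C a))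
      have h1 : shift (i0, l0) (C a : PR E n ρ) = Polynomial.C (C a) :=
        (shift (i0, l0) : PR E n ρ →ₐ[E] _).commutes a
      rw [h1]
      have h2 : ev (k := E) (Matrix.of fun i l => Polynomial.C (tL E n ρ i l) +
          if (i, l) = (i0, l0) then Polynomial.X else 0) (C a) =
          algebraMap E (Polynomial (LR E n ρ)) a := AlgHom.commutes _ a
      rw [h2, Polynomial.coe_mapRingHom, Polynomial.map_C,
        IsScalarTower.algebraMap_apply E (LR E n ρ) (Polynomial (LR E n ρ))]
      congr 1
    · rintro ⟨i, l⟩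
      change ev (k := E) _ (X (i, l)) = Polynomial.mapRingHom _ (shift (i0, l0) (X (i, l)))
      rw [ev_X, Matrix.of_apply, shift, aeval_X, map_add]
      congr 1
      · rw [Polynomial.coe_mapRingHom, Polynomial.map_C, tL_apply]
      · split_ifs
        · rw [Polynomial.coe_mapRingHom, Polynomial.map_X]
        · rw [map_zero]
  exact DFunLike.congr_fun h b

end first

end Pool.Agent.J6H83.Nr
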