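import Pool.Agent.J6H83.Nr.Inv
import Pool.Agent.J6H83.Dv.Act

/-!
The invariants of the group schemes of the matrices `g` with `g ^ (q) ∈ Γ`: main properties.
-/

set_option autoImplicit false
set_option linter.unusedSectionVars false

open MvPolynomial Matrix Cardinal TensorProduct

universe u v

namespace Pool.Agent.J6H83.Nr

open Pool.Agent.R837.FM
open Pool.Agent.J6H83.Dv (Ue We sbs sbs_eq finiteType_of_integral)
open Pool.Agent.Y212.Fk (shift dvd_of_shift)
open Pool.Agent.J6H83.Pk (sum_pow_R)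

variable {F : Type v} [Field F] [Fintype F] {k : Type u} [Field k] [Algebra F k]
  {E : Type u} [Field E] [Algebra k E] [Algebra F E] [IsScalarTower F k E] {n ρ m : ℕ}
  {p r : ℕ} [hp : Fact p.Prime] [hc : CharP E p] {w : Matrix (Fin ρ) (Fin m) E}

lemma shift_quot (hρn : ρ ≤ n) {lv s : Fin n → ℕ} {f : MvPolynomial (Fin n × Fin m) k}
    (hf : f ∈ pre F k n w (p ^ r) lv s) (i0 : Fin n) (l0 : Fin ρ) {R : Type u} [CommRing R]
    [Algebra k R] [Algebra E R] [IsScalarTower k E R] (φ : Polynomial (LR E n ρ) →ₐ[E] R)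
    (hφ : φ (Polynomial.X ^ (p ^ r)) = 0) :
    φ (Polynomial.mapRingHom (algebraMap (PR E n ρ) (LR E n ρ))
      (shift (i0, l0) (Th k n w f))) =
    φ (Polynomial.C (algebraMap (PR E n ρ) (LR E n ρ) (Th k n w f))) := by
  have hG : IsG (F := F) k (p ^ r) lv s ((gT E hρn i0 l0).map φ) := by
    refine ⟨1, cond_one lv s, fun i j => ?_⟩
    have hch : CharP (LR E n ρ) p := charP_of_injective_algebraMap
      (algebraMap E (LR E n ρ)).injective p
    have h2 : gT E hρn i0 l0 i j ^ (p ^ r) = Polynomial.C ((if i = j then 1 else 0) ^ (p ^ r)) +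
        Polynomial.X ^ (p ^ r) *
          Polynomial.C ((if i = i0 then sv E hρn l0 j else 0) ^ (p ^ r)) := by
      rw [gT, Matrix.of_apply, add_pow_char_pow, mul_pow, ← map_pow, ← map_pow]
    rw [Matrix.map_apply, ← map_pow, h2, map_add, map_mul, hφ, zero_mul, add_zero, Units.val_one,
      Matrix.one_apply]
    split_ifs
    · rw [one_pow, map_one, map_one, map_one, map_one]
    · rw [zero_pow (qpos p r).ne', map_zero, map_zero, map_zero, map_zero]
  have h1 := hf R (((tL E n ρ).map Polynomial.C).map φ * w.map (algebraMap E R))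
    ((gT E hρn i0 l0).map φ) (isPt_map _) hG
  have h2 : (gT E hρn i0 l0).map φ * ((tL E n ρ).map Polynomial.C).map φ =
      (gT E hρn i0 l0 * (tL E n ρ).map Polynomial.C).map φ :=
    (Matrix.map_mul (f := φ.toRingHom)).symm
  rw [← Matrix.mul_assoc, ← aeval_Th, ← aeval_Th, h2, ← ev_map, ← ev_map,
    gT_mul (F := F), ev_shift] at h1
  have h3 : ev (k := E) ((tL E n ρ).map Polynomial.C) (Th k n w f) =
      Polynomial.C (algebraMap (PR E n ρ) (LR E n ρ) (Th k n w f)) := by
    have h4 : (ev (k := E) ((tL E n ρ).map Polynomial.C)).toRingHom =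
        (Polynomial.C).comp (algebraMap (PR E n ρ) (LR E n ρ)) := by
      apply MvPolynomial.ringHom_ext
      · intro c
        change ev (k := E) ((tL E n ρ).map Polynomial.C) (C c) = _
        have h5 : ev (k := E) ((tL E n ρ).map Polynomial.C) (C c) =
            algebraMap E (Polynomial (LR E n ρ)) c := AlgHom.commutes _ c
        rw [h5]
        rfl
      · rintro ⟨i, l⟩
        change ev (k := E) ((tL E n ρ).map Polynomial.C) (X (i, l)) = _
        rw [ev_X]
        rfl
    exact DFunLike.congr_fun h4 _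
  rw [h3] at h1
  exact h1

/-- The restrictions of the invariants are polynomials in the powers of the entries of `t`. -/
theorem exists_expand (hρn : ρ ≤ n) {lv s : Fin n → ℕ} {f : MvPolynomial (Fin n × Fin m) k}
    (hf : f ∈ pre F k n w (p ^ r) lv s) : ∃ b : PR E n ρ, expand (p ^ r) b = Th k n w f := by
  classical
  have hdvd : ∀ d, coeff d (Th k n w f) ≠ 0 → ∀ v, p ^ r ∣ d v := by
    rintro d hd ⟨i0, l0⟩
    refine dvd_of_shift hp.out (i0, l0) _ ?_ d hd
    intro a ha0 ha
    have hmem : (Polynomial.X : Polynomial (LR E n ρ)) ^ (p ^ r) ∈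
        Ideal.span {(Polynomial.X : Polynomial (LR E n ρ)) ^ (p ^ r)} :=
      Ideal.mem_span_singleton_self _
    have h1 := shift_quot hρn hf i0 l0 (R := Polynomial (LR E n ρ) ⧸
        Ideal.span {(Polynomial.X : Polynomial (LR E n ρ)) ^ (p ^ r)})
      (Ideal.Quotient.mkₐ E (Ideal.span {(Polynomial.X : Polynomial (LR E n ρ)) ^ (p ^ r)}))
      (Ideal.Quotient.eq_zero_iff_mem.2 hmem)
    have h5 : Polynomial.X ^ (p ^ r) ∣ Polynomial.mapRingHom (algebraMap (PR E n ρ) (LR E n ρ))
        (shift (i0, l0) (Th k n w f)) -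
          Polynomial.C (algebraMap (PR E n ρ) (LR E n ρ) (Th k n w f)) := by
      rw [← Ideal.mem_span_singleton]
      exact Ideal.Quotient.eq.1 h1
    have h6 := (Polynomial.X_pow_dvd_iff.1 h5) a ha
    rw [Polynomial.coeff_sub, Polynomial.coeff_C_of_ne_zero ha0.ne', sub_zero,
      Polynomial.coe_mapRingHom, Polynomial.coeff_map] at h6
    exact (FaithfulSMul.algebraMap_eq_zero_iff _ _).1 h6
  have h1 := Pool.Agent.J6H83.Pk.mem_adjoin_of_dvd (fun _ => p ^ r) _ hdvd
  have h2 : Algebra.adjoin E (Set.range fun v : Fin n × Fin ρ => (X v ^ (p ^ r) : PR E n ρ)) ≤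
      (expand (p ^ r) : PR E n ρ →ₐ[E] PR E n ρ).range := by
    refine Algebra.adjoin_le ?_
    rintro _ ⟨v, rfl⟩
    exact ⟨X v, expand_X _ _⟩
  obtain ⟨b, hb⟩ := h2 h1
  exact ⟨b, hb⟩

/-- The coordinate ring of the cone. -/
abbrev OO (k : Type u) [Field k] {E : Type u} [Field E] [Algebra k E] (n : ℕ) {ρ m : ℕ}
    (w : Matrix (Fin ρ) (Fin m) E) := MvPolynomial (Fin n × Fin m) k ⧸ coneI k n w

/-- The embedding of the coordinate ring of the cone. -/
noncomputable def thO (k : Type u) [Field k] {E : Type u} [Field E] [Algebra k E] (n : ℕ)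
    {ρ m : ℕ} (w : Matrix (Fin ρ) (Fin m) E) : OO k n w →ₐ[k] PR E n ρ :=
  Ideal.Quotient.liftₐ (coneI k n w) (Th k n w) fun _ ha => mem_coneI.1 ha

lemma thO_mk (f : MvPolynomial (Fin n × Fin m) k) :
    thO k n w (Ideal.Quotient.mk _ f) = Th k n w f := rfl

lemma thO_injective : Function.Injective (thO k n w) := by
  rw [injective_iff_map_eq_zero]
  intro a ha
  obtain ⟨f, rfl⟩ := Ideal.Quotient.mk_surjective a
  exact Ideal.Quotient.eq_zero_iff_mem.2 (mem_coneI.2 ha)

lemma isDomain_OO : IsDomain (OO k n w) :=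
  thO_injective.isDomain (thO k n w).toRingHom

/-- The generic point of the cone. -/
noncomputable def xO (k : Type u) [Field k] {E : Type u} [Field E] [Algebra k E] (n : ℕ)
    {ρ m : ℕ} (w : Matrix (Fin ρ) (Fin m) E) : Matrix (Fin n) (Fin m) (OO k n w) :=
  Matrix.of fun i j => Ideal.Quotient.mk _ (X (i, j))

section univ

variable {W : Type u} [CommRing W] [Algebra k W]

/-- The universal point. -/
noncomputable def xU (k : Type u) [Field k] {E : Type u} [Field E] [Algebra k E] (n : ℕ)
    {ρ m : ℕ} (w : Matrix (Fin ρ) (Fin m) E) (W : Type u) [CommRing W] [Algebra k W] :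
    Matrix (Fin n) (Fin m) ((OO k n w) ⊗[k] W) :=
  (xO k n w).map (Algebra.TensorProduct.includeLeft : OO k n w →ₐ[k] (OO k n w) ⊗[k] W)

variable (k w) in
/-- The universal matrix. -/
noncomputable def gU (g : Matrix (Fin n) (Fin n) W) :
    Matrix (Fin n) (Fin n) ((OO k n w) ⊗[k] W) :=
  g.map (Algebra.TensorProduct.includeRight : W →ₐ[k] (OO k n w) ⊗[k] W)

/-- The embedding into a tensor product of a polynomial ring. -/
noncomputable def Phi (k : Type u) [Field k] {E : Type u} [Field E] [Algebra k E] (n : ℕ)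
    {ρ m : ℕ} (w : Matrix (Fin ρ) (Fin m) E) (W : Type u) [CommRing W] [Algebra k W] :
    (OO k n w) ⊗[k] W →ₐ[k] (PR E n ρ) ⊗[k] W :=
  Algebra.TensorProduct.map (thO k n w) (AlgHom.id k W)

lemma Phi_injective : Function.Injective (Phi k n w W) :=
  Module.Flat.rTensor_preserves_injective_linearMap (M := W)
      (thO k n w).toLinearMap thO_injective

lemma xU_map : (xU k n w W).map (Phi k n w W) =
    (Matrix.of fun i l => (X (i, l) : PR E n ρ) ⊗ₜ[k] (1 : W)) *
      w.map (algebraMap E ((PR E n ρ) ⊗[k] W)) := by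
  ext1 i j
  rw [Matrix.map_apply, Matrix.mul_apply]
  have h1 : Phi k n w W (xU k n w W i j) =
      (Algebra.TensorProduct.includeLeft : PR E n ρ →ₐ[E] (PR E n ρ) ⊗[k] W) (xP n w i j) := by
    change Phi k n w W ((xO k n w i j) ⊗ₜ[k] 1) = _
    rw [Phi, Algebra.TensorProduct.map_tmul, map_one]
    have h2 : thO k n w (xO k n w i j) = xP n w i j := by
      change Th k n w (X (i, j)) = _
      rw [Th, ev_X]
    rw [h2]
    rfl
  rw [h1, xP, Matrix.of_apply, map_sum]
  apply Finset.sum_congr rfl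
  intro l _
  rw [map_mul, Matrix.map_apply, Matrix.of_apply]
  congr 1

lemma gU_map (g : Matrix (Fin n) (Fin n) W) : (gU k w g).map (Phi k n w W) =
    Matrix.of fun i j => (1 : PR E n ρ) ⊗ₜ[k] g i j := by
  ext1 i j
  rw [Matrix.map_apply, Matrix.of_apply]
  change Phi k n w W (1 ⊗ₜ[k] g i j) = 1 ⊗ₜ[k] g i j
  rw [Phi, Algebra.TensorProduct.map_tmul, map_one]
  rfl

/-- The invariance at the universal point. -/
lemma univ_inv {f : MvPolynomial (Fin n × Fin m) k} {b : PR E n ρ}
    (hb : expand (p ^ r) b = Th k n w f) {γ : Matrix (Fin n) (Fin n) F}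
    (hfix : tau E ρ γ b = b) {g : Matrix (Fin n) (Fin n) W}
    (hg : ∀ i j, g i j ^ (p ^ r) = algebraMap k W (algebraMap F k (γ i j))) :
    ev (gU k w g * xU k n w W) f = ev (xU k n w W) f := by
  apply Phi_injective (w := w) (W := W)
  have e1 := ev_map (Phi k n w W) (gU k w g * xU k n w W) f
  have e2 := ev_map (Phi k n w W) (xU k n w W) f
  refine e1.trans (Eq.trans ?_ e2.symm)
  have h1 : (gU k w g * xU k n w W).map (Phi k n w W) =
      (gU k w g).map (Phi k n w W) * (xU k n w W).map (Phi k n w W) :=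
    Matrix.map_mul (f := (Phi k n w W).toRingHom)
  rw [h1, xU_map, ← Matrix.mul_assoc, ← aeval_Th, ← aeval_Th, ← hb,
    ev_mul_expand (k := k) (γ := γ), hfix]
  intro i j
  rw [gU_map, Matrix.of_apply, Algebra.TensorProduct.tmul_pow, one_pow, hg,
    ← IsScalarTower.algebraMap_apply F E, IsScalarTower.algebraMap_apply F k (_ ⊗[k] _)]
  exact (Algebra.TensorProduct.includeRight : W →ₐ[k] (PR E n ρ) ⊗[k] W).commutes _

/-- Specialization. -/
lemma inv_of_univ {f : MvPolynomial (Fin n × Fin m) k} {g0 : Matrix (Fin n) (Fin n) W}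
    (h : ev (gU k w g0 * xU k n w W) f = ev (xU k n w W) f) {R : Type u} [CommRing R] [Algebra k R]
    {x : Matrix (Fin n) (Fin m) R} (hx : IsPt k w x) (ψ2 : W →ₐ[k] R) :
    ev (g0.map ψ2 * x) f = ev x f := by
  let ψ1 : OO k n w →ₐ[k] R := Ideal.Quotient.liftₐ (coneI k n w) (ev x) hx
  let ψ : (OO k n w) ⊗[k] W →ₐ[k] R := Algebra.TensorProduct.productMap ψ1 ψ2
  have e1 := ev_map ψ (gU k w g0 * xU k n w W) f
  have e2 := ev_map ψ (xU k n w W) f
  have h1 := e1.symm.trans ((congrArg ψ h).trans e2)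
  have hx3 : (xU k n w W).map ψ = x := by
    ext1 i j
    rw [Matrix.map_apply]
    change ψ ((xO k n w i j) ⊗ₜ[k] 1) = _
    rw [Algebra.TensorProduct.productMap_apply_tmul, map_one, mul_one]
    change ev x (X (i, j)) = _
    rw [ev_X]
  have hg3 : (gU k w g0).map ψ = g0.map ψ2 := by
    ext1 i j
    rw [Matrix.map_apply]
    change ψ (1 ⊗ₜ[k] (g0 i j)) = _
    rw [Algebra.TensorProduct.productMap_apply_tmul, map_one, one_mul]
    rfl
  have hgx3 : (gU k w g0 * xU k n w W).map ψ = (gU k w g0).map ψ * (xU k n w W).map ψ :=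
    Matrix.map_mul (f := ψ.toRingHom)
  rw [hgx3, hx3, hg3] at h1
  exact h1

end univ

/-- Sufficient condition for invariants. -/
theorem mem_pre {lv s : Fin n → ℕ} {f : MvPolynomial (Fin n × Fin m) k} {b : PR E n ρ}
    (hb : expand (p ^ r) b = Th k n w f)
    (hfix : ∀ γ : Matrix.GeneralLinearGroup (Fin n) F,
      Cond lv s (γ : Matrix (Fin n) (Fin n) F) →
        tau E ρ (γ : Matrix (Fin n) (Fin n) F) b = b) : f ∈ pre F k n w (p ^ r) lv s := by
  intro R _ _ x g hx hg
  obtain ⟨γ, hγ, hg⟩ := hg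
  let J : Ideal (MvPolynomial (Fin n × Fin n) k) := Ideal.span (Set.range fun u =>
    X u ^ (p ^ r) - C (algebraMap F k ((γ : Matrix (Fin n) (Fin n) F) u.1 u.2)))
  have hJ : ∀ a ∈ J, ev (k := k) g a = 0 := by
    intro a ha
    have h1 : J ≤ RingHom.ker (ev (k := k) g) := by
      refine Ideal.span_le.2 ?_
      rintro _ ⟨⟨i, j⟩, rfl⟩
      change ev (k := k) g _ = 0
      rw [map_sub, map_pow, ev_X, hg, sub_eq_zero]
      exact ((ev (k := k) g).commutes _).symm
    exact h1 ha
  have h2 := univ_inv (k := k) hb (hfix γ hγ)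
    (g := Matrix.of fun i j => Ideal.Quotient.mk J (X (i, j))) (by
      intro i j
      have h1 : X (i, j) ^ (p ^ r) -
          C (algebraMap F k ((γ : Matrix (Fin n) (Fin n) F) i j)) ∈ J :=
        Ideal.subset_span ⟨(i, j), rfl⟩
      have h2 := Ideal.Quotient.eq.2 h1
      rw [map_pow] at h2
      exact h2)
  have h3 := inv_of_univ h2 hx (Ideal.Quotient.liftₐ J (ev g) hJ)
  have h4 : (Matrix.of fun i j => Ideal.Quotient.mk J (X (i, j))).map
      (Ideal.Quotient.liftₐ J (ev g) hJ) = g := by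
    ext1 i j
    rw [Matrix.map_apply, Matrix.of_apply]
    change ev g (X (i, j)) = _
    rw [ev_X]
  rw [h4] at h3
  exact h3

section integral

variable {lv s : Fin n → ℕ}

lemma sbs_of_inva {h : MvPolynomial (Fin n × Fin m) k}
    (hh : h ∈ inva (affGrp (F := F) (n := n) lv s (⊥ : Submodule F (Fin m → k))))
    {γ : Matrix.GeneralLinearGroup (Fin n) F} (hγ : Cond lv s (γ : Matrix (Fin n) (Fin n) F)) :
    sbs k m (γ : Matrix (Fin n) (Fin n) F) h = h := by
  obtain ⟨τ, hτ⟩ := exists_equiv (k := k) γ (fun _ _ => 0 : Fin n → Fin m → k)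
  have h1 : τ ∈ affGrp (F := F) (n := n) lv s (⊥ : Submodule F (Fin m → k)) :=
    ⟨γ, hγ, fun _ _ => 0, fun _ => Submodule.zero_mem _, hτ⟩
  rw [sbs_eq, ← hτ]
  exact hh τ h1

lemma ev_sbs {R : Type u} [CommRing R] [Algebra k R] (x : Matrix (Fin n) (Fin m) R)
    (γ : Matrix (Fin n) (Fin n) F) (h : MvPolynomial (Fin n × Fin m) k) :
    ev x (sbs k m γ h) =
      ev (Matrix.of fun i j => ∑ l, algebraMap k R (algebraMap F k (γ i l)) * x l j) h := by
  have h1 : (ev x).comp (sbs k m γ) =
      ev (Matrix.of fun i j => ∑ l, algebraMap k R (algebraMap F k (γ i l)) * x l j) := by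
    apply MvPolynomial.algHom_ext
    rintro ⟨i, j⟩
    rw [AlgHom.comp_apply, ev_X, sbs, aeval_X, map_sum, Matrix.of_apply]
    apply Finset.sum_congr rfl
    intro l _
    rw [map_mul, ev_X]
    congr 1
    exact (ev (k := k) x).commutes _
  exact DFunLike.congr_fun h1 h

lemma ev_expand {R : Type u} [CommRing R] [Algebra k R] (q : ℕ) (x : Matrix (Fin n) (Fin m) R)
    (h : MvPolynomial (Fin n × Fin m) k) :
    ev x (expand q h) = ev (Matrix.of fun i j => x i j ^ q) h := by
  have h1 : (ev x).comp (expand q) = ev (k := k) (Matrix.of fun i j => x i j ^ q) := by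
    apply MvPolynomial.algHom_ext
    rintro ⟨i, j⟩
    rw [AlgHom.comp_apply, expand_X, map_pow, ev_X, ev_X, Matrix.of_apply]
  exact DFunLike.congr_fun h1 h

variable (k) in
include k in
lemma charP_k (E : Type u) [Field E] [Algebra k E] [hc : CharP E p] : CharP k p :=
  (Algebra.charP_iff k E p).2 hc

lemma expand_mem_pre {h : MvPolynomial (Fin n × Fin m) k}
    (hh : h ∈ inva (affGrp (F := F) (n := n) lv s (⊥ : Submodule F (Fin m → k)))) :
    expand (p ^ r) h ∈ pre F k n w (p ^ r) lv s := by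
  have hck : CharP k p := charP_k k E
  intro R _ _ x g hx hg
  obtain ⟨γ, hγ, hg⟩ := hg
  rw [ev_expand, ev_expand]
  have h1 : (Matrix.of fun i j => (g * x) i j ^ (p ^ r)) = Matrix.of fun i j =>
      ∑ l, algebraMap k R (algebraMap F k ((γ : Matrix (Fin n) (Fin n) F) i l)) *
        (Matrix.of fun i j => x i j ^ (p ^ r)) l j := by
    ext1 i j
    rw [Matrix.of_apply, Matrix.of_apply, Matrix.mul_apply, sum_pow_R k]
    apply Finset.sum_congr rfl
    intro l _
    rw [mul_pow, hg, Matrix.of_apply]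
  rw [h1, ← ev_sbs, sbs_of_inva hh hγ]

variable (F k n w) in
/-- The ring of invariants. -/
noncomputable def AA (q : ℕ) (lv s : Fin n → ℕ) : Subalgebra k (OO k n w) :=
  (pre F k n w q lv s).map (Ideal.Quotient.mkₐ k (coneI k n w))

lemma isDomain_AA (q : ℕ) (lv s : Fin n → ℕ) : IsDomain (AA F k n w q lv s) := by
  have := isDomain_OO (k := k) (n := n) (w := w)
  infer_instance

variable (F k n w p r lv s) in
/-- The homomorphism from the invariants. -/
noncomputable def toAA : inva (affGrp (F := F) (k := k) (n := n) lv s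
    (⊥ : Submodule F (Fin m → k))) →+* AA F k n w (p ^ r) lv s :=
  ((Ideal.Quotient.mkₐ k (coneI k n w)).comp ((expand (p ^ r)).comp
    (inva (affGrp (F := F) (k := k) (n := n) lv s
      (⊥ : Submodule F (Fin m → k)))).val)).toRingHom.codRestrict
        (AA F k n w (p ^ r) lv s).toSubring fun a => ⟨_, expand_mem_pre a.2, rfl⟩

/-- The coordinate ring is integral over the invariants. -/
lemma isIntegral_OO (lv s : Fin n → ℕ) :
    Algebra.IsIntegral (AA F k n w (p ^ r) lv s) (OO k n w) := by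
  have h1 := isIntegral_inva (affGrp (F := F) (k := k) (n := n) lv s
    (⊥ : Submodule F (Fin m → k)))
  have hX : ∀ v : Fin n × Fin m, IsIntegral (AA F k n w (p ^ r) lv s)
      (Ideal.Quotient.mk (coneI k n w) (X v)) := by
    intro v
    obtain ⟨P, hP, h2⟩ := h1.isIntegral (X v)
    refine IsIntegral.of_pow (qpos p r) ?_
    refine ⟨P.map (toAA F k n p r w lv s), hP.map _, ?_⟩
    rw [Polynomial.eval₂_map]
    have h3 : (algebraMap (AA F k n w (p ^ r) lv s) (OO k n w)).comp (toAA F k n p r w lv s) =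
        ((Ideal.Quotient.mk (coneI k n w)).comp (expand (p ^ r)).toRingHom).comp
          (algebraMap (inva (affGrp (F := F) (k := k)
            (n := n) lv s (⊥ : Submodule F (Fin m → k)))) _) := rfl
    have h4 : Ideal.Quotient.mk (coneI k n w) (X v) ^ (p ^ r) =
        ((Ideal.Quotient.mk (coneI k n w)).comp (expand (p ^ r)).toRingHom) (X v) := by
      change _ = Ideal.Quotient.mk (coneI k n w) (expand (p ^ r) (X v))
      rw [expand_X, map_pow]
    rw [h3, h4, ← Polynomial.hom_eval₂, h2, map_zero]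
  constructor
  intro y
  obtain ⟨f, rfl⟩ := Ideal.Quotient.mk_surjective y
  induction f using MvPolynomial.induction_on with
  | C a =>
    have h2 : Ideal.Quotient.mk (coneI k n w) (C a) =
        algebraMap (AA F k n w (p ^ r) lv s) (OO k n w) (algebraMap k _ a) := rfl
    rw [h2]
    exact isIntegral_algebraMap
  | add f g hf hg =>
    rw [map_add]
    exact hf.add hg
  | mul_X f v hf =>
    rw [map_mul]
    exact hf.mul (hX v)

lemma finiteType_AA (lv s : Fin n → ℕ) :
    Algebra.FiniteType k (AA F k n w (p ^ r) lv s) :=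
  finiteType_of_integral _ (isIntegral_OO lv s)

end integral

end Pool.Agent.J6H83.Nr
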