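import Mathlib

/-!
Smooth domains over a field are integrally closed.
-/

set_option autoImplicit false

open TensorProduct

universe u

namespace Pool.Agent.J6H83.Nr

/-- Etale domains over integrally closed domains are integrally closed. -/
theorem isIntegrallyClosed_of_etale (R T : Type u) [CommRing R] [IsDomain R]
    [IsIntegrallyClosed R] [CommRing T] [IsDomain T] [Algebra R T] [Algebra.Smooth R T]
    [Algebra.FormallyUnramified R T] : IsIntegrallyClosed T := by
  let K := FractionRing R
  have hinj : Function.Injective (algebraMap R T) := by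
    have : Module.IsTorsionFree R T := inferInstance
    exact FaithfulSMul.algebraMap_injective R T
  have hloc : IsLocalization (Algebra.algebraMapSubmonoid T (nonZeroDivisors R)) (T ⊗[R] K) :=
    inferInstance
  have hle : Algebra.algebraMapSubmonoid T (nonZeroDivisors R) ≤ nonZeroDivisors T := by
    rintro _ ⟨a, ha, rfl⟩
    have ha : a ∈ nonZeroDivisors R := ha
    rw [mem_nonZeroDivisors_iff_ne_zero] at ha ⊢
    exact fun h => ha (hinj (h.trans (map_zero _).symm))
  have hdom : IsDomain (T ⊗[R] K) := IsLocalization.isDomain_of_le_nonZeroDivisors _ hle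
  have hfield : IsField (T ⊗[R] K) := by
    let e : (T ⊗[R] K) ≃+* (K ⊗[R] T) := (Algebra.TensorProduct.comm R T K).toRingEquiv
    have hdom' : IsDomain (K ⊗[R] T) := e.symm.injective.isDomain e.symm.toRingHom
    have hun : Algebra.FormallyUnramified K (K ⊗[R] T) := inferInstance
    have hft : Algebra.FiniteType K (K ⊗[R] T) := inferInstance
    have hfin : Module.Finite K (K ⊗[R] T) :=
      Algebra.FormallyUnramified.finite_of_free (R := K) (S := K ⊗[R] T)
    have h1 : IsField (K ⊗[R] T) :=
      isField_of_isIntegral_of_isField' (R := K) (Field.toIsField K)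
    exact e.toMulEquiv.isField h1
  have hbij := TensorProduct.toIntegralClosure_bijective_of_smooth (R := R) (S := T) (B := K)
  have hbot : ∀ a : K, IsIntegral R a → ∃ b, algebraMap R K b = a := fun a ha =>
    IsIntegrallyClosed.isIntegral_iff.1 ha
  have hkey : ∀ x : T ⊗[R] K, IsIntegral T x → ∃ y, algebraMap T (T ⊗[R] K) y = x := by
    intro x hx
    obtain ⟨y, hy⟩ := hbij.2 ⟨x, hx⟩
    have hy' : x = (Algebra.TensorProduct.map (.id T T) (integralClosure R K).val) y :=
      (congrArg Subtype.val hy).symm
    rw [hy']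
    clear hy hy' hx
    induction y with
    | zero => exact ⟨0, by rw [map_zero, map_zero]⟩
    | add a b ha hb =>
      obtain ⟨a', ha'⟩ := ha
      obtain ⟨b', hb'⟩ := hb
      exact ⟨a' + b', by rw [map_add, map_add, ha', hb']⟩
    | tmul a b =>
      obtain ⟨c, hc⟩ := hbot b.1 b.2
      refine ⟨a * algebraMap R T c, ?_⟩
      have h1 : (Algebra.TensorProduct.map (AlgHom.id T T) (integralClosure R K).val)
        (a ⊗ₜ[R] b) = a ⊗ₜ[R] (b : K) := rfl
      rw [h1, ← hc, Algebra.TensorProduct.algebraMap_apply, mul_comm, ← Algebra.smul_def,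
        Algebra.algebraMap_self, RingHom.id_apply, TensorProduct.smul_tmul,
        Algebra.algebraMap_eq_smul_one (A := K)]
  let _ : Field (T ⊗[R] K) := hfield.toField
  have hinj' : Function.Injective (algebraMap T (T ⊗[R] K)) := IsLocalization.injective _ hle
  have hfs : FaithfulSMul T (T ⊗[R] K) := (faithfulSMul_iff_algebraMap_injective _ _).2 hinj'
  have hfr : IsFractionRing T (T ⊗[R] K) := by
    refine IsFractionRing.of_field T (T ⊗[R] K) fun z => ?_
    obtain ⟨x, y, rfl⟩ := IsLocalization.exists_mk'_eq
      (Algebra.algebraMapSubmonoid T (nonZeroDivisors R)) z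
    refine ⟨x, y, ?_⟩
    have h1 := IsLocalization.mk'_spec (T ⊗[R] K) x y
    have h2 : algebraMap T (T ⊗[R] K) y ≠ 0 := by
      intro h
      have h3 := hinj' (h.trans (map_zero _).symm)
      exact (mem_nonZeroDivisors_iff_ne_zero.1 (hle y.2)) h3
    rw [eq_div_iff h2]
    exact h1
  rw [isIntegrallyClosed_iff (T ⊗[R] K)]
  intro x hx
  exact hkey x hx

/-- Smooth domains over a field are integrally closed. -/
theorem isIntegrallyClosed_of_smooth (k S : Type u) [Field k] [CommRing S] [IsDomain S]
    [Algebra k S] [Algebra.Smooth k S] : IsIntegrallyClosed S := by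
  rw [isIntegrallyClosed_iff (FractionRing S)]
  intro x hx
  let I : Ideal S :=
    { carrier := {a | ∃ y, algebraMap S (FractionRing S) y = algebraMap S (FractionRing S) a * x}
      add_mem' := by
        rintro a b ⟨y, hy⟩ ⟨z, hz⟩
        exact ⟨y + z, by rw [map_add, map_add, hy, hz, add_mul]⟩
      zero_mem' := ⟨0, by rw [map_zero, zero_mul]⟩
      smul_mem' := by
        rintro c a ⟨y, hy⟩
        exact ⟨c * y, by rw [smul_eq_mul, map_mul, map_mul, hy, mul_assoc]⟩ }
  by_cases hI : I = ⊤
  · have h1 : (1 : S) ∈ I := by rw [hI]; trivial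
    obtain ⟨y, hy⟩ := h1
    exact ⟨y, by rw [hy, map_one, one_mul]⟩
  exfalso
  obtain ⟨m, hm, hle⟩ := Ideal.exists_le_maximal I hI
  obtain ⟨f, hf, n, hal, htow, het⟩ :=
    Algebra.IsSmoothAt.exists_isStandardEtale_mvPolynomial (R := k) (p := m)
  have hf0 : f ≠ 0 := fun h => hf (h ▸ m.zero_mem)
  have hpow : Submonoid.powers f ≤ nonZeroDivisors S := by
    rintro _ ⟨n, rfl⟩
    exact mem_nonZeroDivisors_iff_ne_zero.2 (pow_ne_zero _ hf0)
  have hdom : IsDomain (Localization.Away f) :=
    IsLocalization.isDomain_of_le_nonZeroDivisors _ hpow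
  have hic : IsIntegrallyClosed (Localization.Away f) :=
    isIntegrallyClosed_of_etale (MvPolynomial (Fin n) k) (Localization.Away f)
  have hunit : IsUnit (algebraMap S (FractionRing S) f) := by
    rw [isUnit_iff_ne_zero]
    exact (FaithfulSMul.algebraMap_eq_zero_iff _ _).not.2 hf0
  let φ : Localization.Away f →+* FractionRing S := IsLocalization.Away.lift f hunit
  let _ : Algebra (Localization.Away f) (FractionRing S) := φ.toAlgebra
  have htow2 : IsScalarTower S (Localization.Away f) (FractionRing S) :=
    IsScalarTower.of_algebraMap_eq fun a => (IsLocalization.Away.lift_eq f hunit a).symm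
  have hfrac : IsFractionRing (Localization.Away f) (FractionRing S) :=
    IsFractionRing.isFractionRing_of_isDomain_of_isLocalization (Submonoid.powers f) _ _
  obtain ⟨y, hy⟩ := IsIntegrallyClosed.isIntegral_iff.1
    (hx.tower_top (A := Localization.Away f))
  obtain ⟨N, a, ha⟩ := IsLocalization.Away.surj f y
  apply hf
  have h1 : f ^ N ∈ I := by
    refine ⟨a, ?_⟩
    rw [IsScalarTower.algebraMap_apply S (Localization.Away f) (FractionRing S) a, ← ha, map_mul,
      hy, ← map_pow, ← IsScalarTower.algebraMap_apply, mul_comm]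
  exact Ideal.IsPrime.mem_of_pow_mem inferInstance N (hle h1)

end Pool.Agent.J6H83.Nr
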