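import Pool.Agent.J6H83.Nr.Act
import Pool.Agent.J6H83.Nr.Lev

/-!
The resolution of the quotients of the cones by the group schemes of the matrices `g` with
`g ^ (q) ∈ Γ`.
-/

set_option autoImplicit false
set_option linter.unusedSectionVars false

open MvPolynomial Matrix Cardinal AlgebraicGeometry CategoryTheory

universe u v

namespace Pool.Agent.J6H83.Nr

open Pool.Agent.R837.FM hiding levels chart_final resolution
open Pool.Agent.J6H83.Dv (Ue We Xv re We_eq_div map_mem_Xv)

variable {F : Type v} [Field F] [Fintype F] {k : Type u} [Field k] [Algebra F k]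
  {E : Type u} [Field E] [Algebra k E] [Algebra F E] [IsScalarTower F k E] {n ρ m : ℕ}
  {p r : ℕ} [hp : Fact p.Prime] [hc : CharP E p] {w : Matrix (Fin ρ) (Fin m) E}

/-- The rows of the generic matrix. -/
noncomputable def xrow (F : Type v) [Field F] {E : Type u} [Field E] [Algebra F E] (p r n : ℕ)
    {ρ m : ℕ} (w : Matrix (Fin ρ) (Fin m) E) (i : Fin n) : Xv F (wL p r n w) :=
  ⟨fun j => xL n (wq (p ^ r) w) i j, fun l => tL E n ρ i l, fun j => by
    change (tL E n ρ * (wq (p ^ r) w).map (algebraMap E (LR E n ρ))) i j = _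
    rw [Matrix.mul_apply]
    rfl⟩

lemma xrow_apply (i : Fin n) (j : Fin m) :
    (xrow F p r n w i : Fin m → LR E n ρ) j = xL n (wq (p ^ r) w) i j := rfl

lemma algebraMap_mem_adjoin {e : Fin ρ → Fin m}
    (hE : IntermediateField.adjoin k (RE k w e : Set E) = ⊤) (a : E) :
    algebraMap E (LR E n ρ) a ∈ IntermediateField.adjoin k
      ((RE k w e).map (IsScalarTower.toAlgHom k E (LR E n ρ)) : Set (LR E n ρ)) := by
  have h1 : a ∈ IntermediateField.adjoin k (RE k w e : Set E) := by
    rw [hE]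
    trivial
  have h2 : algebraMap E (LR E n ρ) a ∈ (IntermediateField.adjoin k (RE k w e : Set E)).map
      (IsScalarTower.toAlgHom k E (LR E n ρ)) := ⟨a, h1, rfl⟩
  rw [IntermediateField.adjoin_map] at h2
  exact h2

/-- The entries of the generic matrix and the chart ring generate the function field. -/
lemma adjoin_top {t : T0 w} (hE : IntermediateField.adjoin k (RE k w t.1 : Set E) = ⊤) :
    IntermediateField.adjoin k ((R0 k n t : Set (LR E n ρ)) ∪
      {a | ∃ i l, a = (xrow F p r n w i : Fin m → LR E n ρ) l}) = ⊤ := by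
  classical
  let K := IntermediateField.adjoin k ((R0 k n t : Set (LR E n ρ)) ∪
    {a | ∃ i l, a = (xrow F p r n w i : Fin m → LR E n ρ) l})
  change K = ⊤
  have hx : ∀ i j, xL n (wq (p ^ r) w) i j ∈ K := fun i j =>
    IntermediateField.subset_adjoin k _ (Or.inr ⟨i, j, rfl⟩)
  have ha : ∀ a : E, algebraMap E (LR E n ρ) a ∈ K := by
    intro a
    exact IntermediateField.adjoin.mono k _ _ Set.subset_union_left (algebraMap_mem_adjoin hE a)
  obtain ⟨V, hV⟩ := exists_tL (n := n) (p := p) (r := r) t.2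
  have ht : ∀ i l, tL E n ρ i l ∈ K := by
    intro i l
    rw [hV]
    exact sum_mem fun j _ => mul_mem (hx _ _) (ha _)
  have hP : ∀ a : PR E n ρ, algebraMap (PR E n ρ) (LR E n ρ) a ∈ K := by
    intro a
    induction a using MvPolynomial.induction_on with
    | C a =>
      have h := ha a
      rw [IsScalarTower.algebraMap_apply E (PR E n ρ) (LR E n ρ),
        MvPolynomial.algebraMap_eq] at h
      exact h
    | add f g hf hg =>
      rw [map_add]
      exact add_mem hf hg
    | mul_X f v hf =>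
      rw [map_mul]
      exact mul_mem hf (ht v.1 v.2)
  rw [eq_top_iff]
  intro z _
  obtain ⟨a, b, -, rfl⟩ := IsFractionRing.div_surjective (A := PR E n ρ) z
  exact div_mem (hP a) (hP b)

lemma le_trdeg (t : T0 w) : ((ρ * n : ℕ) : Cardinal) ≤ Algebra.trdeg (R0 k n t) (LR E n ρ) := by
  have h1 : AlgebraicIndependent E fun v : Fin n × Fin ρ =>
      algebraMap (PR E n ρ) (LR E n ρ) (X v) := by
    have h2 := (MvPolynomial.algebraicIndependent_X (Fin n × Fin ρ) E).map'
      (f := IsScalarTower.toAlgHom E (PR E n ρ) (LR E n ρ))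
      (IsFractionRing.injective (PR E n ρ) (LR E n ρ))
    exact h2
  have h2 : ∀ a : R0 k n t, ∃ b : E, algebraMap E (LR E n ρ) b = a := by
    rintro ⟨_, b, -, rfl⟩
    exact ⟨b, rfl⟩
  let f : R0 k n t →+* E := {
    toFun := fun a => (h2 a).choose
    map_one' := (algebraMap E (LR E n ρ)).injective (by rw [(h2 1).choose_spec, map_one]; rfl)
    map_zero' := (algebraMap E (LR E n ρ)).injective (by rw [(h2 0).choose_spec, map_zero]; rfl)
    map_mul' := fun a b => (algebraMap E (LR E n ρ)).injective (by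
      rw [(h2 _).choose_spec, map_mul, (h2 _).choose_spec, (h2 _).choose_spec]; rfl)
    map_add' := fun a b => (algebraMap E (LR E n ρ)).injective (by
      rw [(h2 _).choose_spec, map_add, (h2 _).choose_spec, (h2 _).choose_spec]; rfl) }
  have hf : ∀ a, algebraMap E (LR E n ρ) (f a) = a := fun a => (h2 a).choose_spec
  have hfi : Function.Injective f := by
    intro a b hab
    apply Subtype.ext
    rw [← hf a, ← hf b, hab]
  have h3 : AlgebraicIndependent (R0 k n t) fun v : Fin n × Fin ρ =>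
      algebraMap (PR E n ρ) (LR E n ρ) (X v) := by
    rw [algebraicIndependent_iff]
    intro P hP
    have h4 : aeval (fun v : Fin n × Fin ρ => algebraMap (PR E n ρ) (LR E n ρ) (X v))
        (MvPolynomial.map f P) = 0 := by
      rw [aeval_def, eval₂_map, ← hP, aeval_def]
      congr 1
      ext1 a
      exact hf a
    have h5 := algebraicIndependent_iff.1 h1 _ h4
    exact (map_eq_zero_iff _ (MvPolynomial.map_injective f hfi)).1 h5
  have h4 := h3.lift_cardinalMk_le_trdeg
  rw [Cardinal.lift_id'.{0, u}] at h4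
  have h5 : Cardinal.lift.{u} (Cardinal.mk (Fin n × Fin ρ)) = ((ρ * n : ℕ) : Cardinal) := by
    rw [Cardinal.mk_fintype, Fintype.card_prod, Fintype.card_fin, Fintype.card_fin,
      Cardinal.lift_natCast, mul_comm]
  rw [h5] at h4
  exact h4

lemma xrow_li (hρ : 0 < ρ) (hw : ∃ e, (Ue w e).det ≠ 0) : LinearIndependent F
    fun i => (xrow F p r n w i : Fin m → LR E n ρ) := by
  rw [Fintype.linearIndependent_iff]
  intro b hb i
  obtain ⟨e, he⟩ := hw
  obtain ⟨V, hV⟩ := exists_tL (n := n) (p := p) (r := r) he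
  have h0 : ∑ i, algebraMap F (LR E n ρ) (b i) * tL E n ρ i ⟨0, hρ⟩ = 0 := by
    have h1 : ∀ j, ∑ i, algebraMap F (LR E n ρ) (b i) * xL n (wq (p ^ r) w) i j = 0 := by
      intro j
      have h2 := congrFun hb j
      rw [Finset.sum_apply, Pi.zero_apply] at h2
      rw [← h2]
      exact Finset.sum_congr rfl fun i _ => by
        rw [Pi.smul_apply, xrow_apply, Algebra.smul_def]
    have h2 : ∑ i, algebraMap F (LR E n ρ) (b i) * tL E n ρ i ⟨0, hρ⟩ =
        ∑ j, (∑ i, algebraMap F (LR E n ρ) (b i) * xL n (wq (p ^ r) w) i (e j)) *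
          algebraMap E (LR E n ρ) (V j ⟨0, hρ⟩) := by
      simp only [hV, Finset.mul_sum, Finset.sum_mul]
      rw [Finset.sum_comm]
      exact Finset.sum_congr rfl fun j _ => Finset.sum_congr rfl fun i _ => by ring
    rw [h2]
    exact Finset.sum_eq_zero fun j _ => by rw [h1, zero_mul]
  have h1 : algebraMap (PR E n ρ) (LR E n ρ)
      (∑ i, C (algebraMap F E (b i)) * X (i, ⟨0, hρ⟩)) = 0 := by
    rw [map_sum, ← h0]
    refine Finset.sum_congr rfl fun i _ => ?_
    rw [map_mul, IsScalarTower.algebraMap_apply F E (LR E n ρ),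
      IsScalarTower.algebraMap_apply E (PR E n ρ) (LR E n ρ)]
    rfl
  have h2 := (FaithfulSMul.algebraMap_eq_zero_iff (PR E n ρ) (LR E n ρ)).1 h1
  have h3 := congrArg (MvPolynomial.coeff (Finsupp.single (i, ⟨0, hρ⟩) 1)) h2
  rw [MvPolynomial.coeff_sum, MvPolynomial.coeff_zero, Finset.sum_eq_single i] at h3
  · rw [MvPolynomial.coeff_C_mul, MvPolynomial.coeff_X, if_pos rfl, mul_one] at h3
    exact (map_eq_zero_iff _ (algebraMap F E).injective).1 h3
  · intro j _ hj
    rw [MvPolynomial.coeff_C_mul, MvPolynomial.coeff_X, if_neg, mul_zero]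
    intro h
    have h4 := Finsupp.single_left_injective (one_ne_zero) h
    exact hj (congrArg Prod.fst h4)
  · intro h
    exact absurd (Finset.mem_univ i) h

section gA

variable (hρn : ρ ≤ n) (lv s : Fin n → ℕ)

include hρn in
lemma thO_mem (a : AA F k n w (p ^ r) lv s) : ∃ b : PR E n ρ,
    expand (p ^ r) b = thO k n w a := by
  obtain ⟨_, f, hf, rfl⟩ := a
  exact exists_expand hρn hf

variable (F k w p r) in
/-- The embedding of the invariants into the polynomial ring. -/
noncomputable def gP (hρn : ρ ≤ n) : AA F k n w (p ^ r) lv s →ₐ[k] PR E n ρ where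
  toFun := fun a => (thO_mem hρn lv s a).choose
  map_one' := expand_injective' p r (by
    rw [(thO_mem hρn lv s 1).choose_spec, map_one]
    exact map_one _)
  map_zero' := expand_injective' p r (by
    rw [(thO_mem hρn lv s 0).choose_spec, map_zero]
    exact map_zero _)
  map_mul' := fun a b => expand_injective' p r (by
    rw [(thO_mem hρn lv s _).choose_spec, map_mul, (thO_mem hρn lv s _).choose_spec,
      (thO_mem hρn lv s _).choose_spec]
    exact map_mul _ _ _)
  map_add' := fun a b => expand_injective' p r (by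
    rw [(thO_mem hρn lv s _).choose_spec, map_add, (thO_mem hρn lv s _).choose_spec,
      (thO_mem hρn lv s _).choose_spec]
    exact map_add _ _ _)
  commutes' := fun c => expand_injective' p r (by
    rw [(thO_mem hρn lv s _).choose_spec]
    change thO k n w (algebraMap k _ c) = expand (p ^ r) (algebraMap k (PR E n ρ) c)
    rw [AlgHom.commutes, IsScalarTower.algebraMap_apply k E (PR E n ρ), AlgHom.commutes])

variable {lv s}

lemma expand_gP (a : AA F k n w (p ^ r) lv s) :
    expand (p ^ r) (gP F k p r w lv s hρn a) = thO k n w a :=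
  (thO_mem hρn lv s a).choose_spec

lemma gP_injective : Function.Injective (gP F k p r w lv s hρn) := by
  intro a b hab
  have h1 := congrArg (expand (p ^ r)) hab
  rw [expand_gP, expand_gP] at h1
  exact Subtype.ext (thO_injective h1)

/-- The image of an invariant polynomial. -/
lemma gP_eq {f : MvPolynomial (Fin n × Fin m) k} (hf : f ∈ pre F k n w (p ^ r) lv s)
    {b : PR E n ρ} (hb : expand (p ^ r) b = Th k n w f) :
    gP F k p r w lv s hρn ⟨Ideal.Quotient.mk _ f, ⟨f, hf, rfl⟩⟩ = b := by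
  apply expand_injective' p r
  rw [expand_gP, hb]
  rfl

variable (F k w p r lv s) in
/-- The embedding of the invariants into the function field. -/
noncomputable def gA (hρn : ρ ≤ n) : AA F k n w (p ^ r) lv s →ₐ[k] LR E n ρ :=
  (IsScalarTower.toAlgHom k (PR E n ρ) (LR E n ρ)).comp (gP F k p r w lv s hρn)

lemma gA_apply (a : AA F k n w (p ^ r) lv s) : gA F k p r w lv s hρn a =
    algebraMap (PR E n ρ) (LR E n ρ) (gP F k p r w lv s hρn a) := rfl

lemma gA_injective : Function.Injective (gA F k p r w lv s hρn) :=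
  (IsFractionRing.injective (PR E n ρ) (LR E n ρ)).comp (gP_injective hρn)

lemma iL_gA (a : AA F k n w (p ^ r) lv s) : iL E p r n ρ (gA F k p r w lv s hρn a) =
    algebraMap (PR E n ρ) (LR E n ρ) (thO k n w a) := by
  rw [gA_apply, iL_algebraMap, expand_gP]

lemma algebraMap_Th (f : MvPolynomial (Fin n × Fin m) k) :
    algebraMap (PR E n ρ) (LR E n ρ) (Th k n w f) = ev (xL n w) f := by
  have h := ev_map (IsScalarTower.toAlgHom k (PR E n ρ) (LR E n ρ)) (xP n w) f
  have h2 : (xP n w).map (IsScalarTower.toAlgHom k (PR E n ρ) (LR E n ρ)) = xL n w := by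
    ext1 i j
    exact algebraMap_xP w i j
  rw [h2] at h
  exact h

lemma ev_xL_mem (f : MvPolynomial (Fin n × Fin m) k) (v : Matrix (Fin ρ) (Fin m) E) :
    ev (xL n v) f ∈ Bx k n v := by
  induction f using MvPolynomial.induction_on with
  | C a =>
    have h : ev (xL n v) (C a) = algebraMap k (LR E n ρ) a := AlgHom.commutes _ a
    rw [h]
    exact Subalgebra.algebraMap_mem _ _
  | add f g hf hg =>
    rw [map_add]
    exact Subalgebra.add_mem _ hf hg
  | mul_X f u hf =>
    rw [map_mul, ev_X]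
    exact Subalgebra.mul_mem _ hf (xL_mem _ _ _)

lemma exists_ev {b : LR E n ρ} {v : Matrix (Fin ρ) (Fin m) E} (hb : b ∈ Bx k n v) :
    ∃ f : MvPolynomial (Fin n × Fin m) k, ev (xL n v) f = b := by
  have h1 : Bx k n v ≤ (ev (k := k) (xL n v)).range := by
    refine Algebra.adjoin_le ?_
    rintro _ ⟨i, l, rfl⟩
    exact ⟨X (i, l), ev_X _ _ _⟩
  exact h1 hb

lemma gA_mem (a : AA F k n w (p ^ r) lv s) : gA F k p r w lv s hρn a ∈ BB k p r n w := by
  rw [mem_BB, iL_gA]
  obtain ⟨_, f, hf, rfl⟩ := a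
  change algebraMap (PR E n ρ) (LR E n ρ) (Th k n w f) ∈ _
  rw [algebraMap_Th]
  exact ev_xL_mem _ _

/-- The fixed elements come from invariants. -/
lemma exists_gA {b : LR E n ρ} (hb : b ∈ BB k p r n w)
    (hfix : ∀ γ : Matrix.GeneralLinearGroup (Fin n) F,
      Cond lv s (γ : Matrix (Fin n) (Fin n) F) → sg E ρ γ b = b) :
    ∃ a, b = gA F k p r w lv s hρn a := by
  obtain ⟨f, hf⟩ := exists_ev (mem_BB.1 hb)
  rw [← algebraMap_Th] at hf
  obtain ⟨b', rfl, hb'⟩ := exists_of_iL p r hf.symm
  have h1 : f ∈ pre F k n w (p ^ r) lv s := by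
    refine mem_pre hb' fun γ hγ => ?_
    have h2 := hfix γ hγ
    rw [sg_algebraMap] at h2
    exact IsFractionRing.injective (PR E n ρ) (LR E n ρ) h2
  refine ⟨⟨Ideal.Quotient.mk _ f, ⟨f, h1, rfl⟩⟩, ?_⟩
  rw [gA_apply, gP_eq hρn h1 hb']

/-- The Frobenius is surjective on the matrices. -/
lemma exists_root (γ : Matrix (Fin n) (Fin n) F) [CharP F p] :
    ∃ δ : Matrix (Fin n) (Fin n) F, ∀ i j, δ i j ^ (p ^ r) = γ i j := by
  have h1 : Function.Surjective (iterateFrobenius F p r) :=
    Finite.surjective_of_injective (iterateFrobenius F p r).injective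
  choose f hf using h1
  refine ⟨γ.map f, fun i j => ?_⟩
  rw [Matrix.map_apply, ← iterateFrobenius_def, hf]

/-- The images of the invariants are fixed. -/
lemma sg_gA {g : Matrix.GeneralLinearGroup (Fin n) F}
    (hg : Cond lv s (g : Matrix (Fin n) (Fin n) F)) (a : AA F k n w (p ^ r) lv s) :
    sg E ρ g (gA F k p r w lv s hρn a) = gA F k p r w lv s hρn a := by
  have hFp : CharP F p := (Algebra.charP_iff F E p).2 hc
  obtain ⟨δ, hδ⟩ := exists_root (r := r) (p := p) (g : Matrix (Fin n) (Fin n) F)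
  rw [gA_apply, sg_algebraMap]
  congr 1
  obtain ⟨_, f, hf, rfl⟩ := a
  change tau E ρ _ (gP F k p r w lv s hρn ⟨Ideal.Quotient.mk _ f, ⟨f, hf, rfl⟩⟩) =
    gP F k p r w lv s hρn ⟨Ideal.Quotient.mk _ f, ⟨f, hf, rfl⟩⟩
  obtain ⟨b, hb⟩ := exists_expand hρn hf
  rw [gP_eq hρn hf hb]
  have h1 := hf (LR E n ρ) (tL E n ρ * w.map (algebraMap E (LR E n ρ)))
    (δ.map (algebraMap F (LR E n ρ))) (isPt_map _) ⟨g, hg, fun i j => by
      rw [Matrix.map_apply, ← map_pow, hδ, ← IsScalarTower.algebraMap_apply F k]⟩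
  rw [← Matrix.mul_assoc, ← aeval_Th, ← aeval_Th, ← hb,
    ev_mul_expand (k := k) (γ := (g : Matrix (Fin n) (Fin n) F))] at h1
  · have h2 : ∀ c : PR E n ρ, ev (k := E) (tL E n ρ) c = algebraMap (PR E n ρ) (LR E n ρ) c := by
      intro c
      have h3 : ev (k := E) (tL E n ρ) = IsScalarTower.toAlgHom E (PR E n ρ) (LR E n ρ) := by
        apply MvPolynomial.algHom_ext
        rintro ⟨i, l⟩
        rw [ev_X, tL_apply]
        rfl
      rw [h3]
      rfl
    rw [h2, h2] at h1
    exact expand_injective' p r (IsFractionRing.injective (PR E n ρ) (LR E n ρ) h1)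
  · intro i j
    rw [Matrix.map_apply, ← map_pow, hδ, ← IsScalarTower.algebraMap_apply F E]

/-- Elements of `BB` are in all valuation rings which contain the entries. -/
lemma BB_val {b : LR E n ρ} (hb : b ∈ BB k p r n w) (V : ValuationSubring (LR E n ρ))
    (hk : ∀ c : k, algebraMap k (LR E n ρ) c ∈ V)
    (hx : ∀ i l, (xrow F p r n w i : Fin m → LR E n ρ) l ∈ V) : b ∈ V := by
  have h1 : Bx k n (wq (p ^ r) w) ≤ valAlg V hk := by
    refine Algebra.adjoin_le ?_
    rintro _ ⟨i, l, rfl⟩
    exact hx i l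
  have h2 : b ^ (p ^ r) ∈ V := h1 (pow_mem_of_BB hb)
  rw [← ValuationSubring.valuation_le_one_iff, map_pow] at h2
  rw [← ValuationSubring.valuation_le_one_iff]
  exact (pow_le_one_iff (qpos p r).ne').1 h2

/-- The image of an element given by a polynomial invariant under `Γ`. -/
lemma gA_toAA (h : inva (affGrp (F := F) (k := k) (n := n) lv s
    (⊥ : Submodule F (Fin m → k)))) :
    gA F k p r w lv s hρn (toAA F k n p r w lv s h) =
      ev (xL n (wq (p ^ r) w)) (h : MvPolynomial (Fin n × Fin m) k) := by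
  apply iL_injective p r
  rw [iL_gA]
  change algebraMap (PR E n ρ) (LR E n ρ) (Th k n w (expand (p ^ r)
    (h : MvPolynomial (Fin n × Fin m) k))) = _
  rw [algebraMap_Th, ev_expand]
  have h1 := ev_map ((iL E p r n ρ).restrictScalars k) (xL n (wq (p ^ r) w))
    (h : MvPolynomial (Fin n × Fin m) k)
  refine Eq.trans ?_ h1.symm
  congr 1
  congr 1
  ext1 i j
  rw [Matrix.of_apply, Matrix.map_apply]
  exact (iL_xL p r w i j).symm

lemma BB_of_gA (V : ValuationSubring (LR E n ρ)) (hV : ∀ a, gA F k p r w lv s hρn a ∈ V)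
    (b : LR E n ρ) (hb : b ∈ BB k p r n w) : b ∈ V := by
  have hk : ∀ c : k, algebraMap k (LR E n ρ) c ∈ V := by
    intro c
    have h1 := hV (algebraMap k _ c)
    rwa [AlgHom.commutes] at h1
  refine BB_val (F := F) hb V hk fun i l => ?_
  rw [xrow_apply]
  have hint := isIntegral_inva (affGrp (F := F) (k := k) (n := n) lv s
    (⊥ : Submodule F (Fin m → k)))
  obtain ⟨P, hP, h1⟩ := hint.isIntegral (X (i, l))
  let φ : inva (affGrp (F := F) (k := k) (n := n) lv s
      (⊥ : Submodule F (Fin m → k))) →+* V :=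
    ((gA F k p r w lv s hρn).toRingHom.comp (toAA F k n p r w lv s)).codRestrict
        V.toSubring fun a => hV _
  have h2 : IsIntegral V (xL n (wq (p ^ r) w) i l) := by
    refine ⟨P.map φ, hP.map φ, ?_⟩
    rw [Polynomial.eval₂_map]
    have h3 : (algebraMap V (LR E n ρ)).comp φ =
        (ev (k := k) (xL n (wq (p ^ r) w))).toRingHom.comp (algebraMap (inva (affGrp (F := F)
          (k := k) (n := n) lv s (⊥ : Submodule F (Fin m → k)))) _) := by
      ext1 a
      exact gA_toAA hρn a
    have h4 : xL n (wq (p ^ r) w) i l = (ev (k := k) (xL n (wq (p ^ r) w))).toRingHom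
        (X (i, l)) := (ev_X _ _ _).symm
    rw [h3, h4, ← Polynomial.hom_eval₂, h1, map_zero]
  obtain ⟨y, hy⟩ := IsIntegrallyClosed.isIntegral_iff.1 h2
  rw [← hy]
  exact y.2

end gA

lemma fix_E {t : T0 w} (hE : IntermediateField.adjoin k (RE k w t.1 : Set E) = ⊤)
    {σ : LR E n ρ →+* LR E n ρ} (hσ : ∀ b ∈ R0 k n t, σ b = b) (a : E) :
    σ (algebraMap E (LR E n ρ) a) = algebraMap E (LR E n ρ) a := by
  have h1 := algebraMap_mem_adjoin (n := n) hE a
  generalize algebraMap E (LR E n ρ) a = c at h1 ⊢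
  induction h1 using IntermediateField.adjoin_induction with
  | mem x hx => exact hσ x hx
  | algebraMap c => exact hσ _ (Subalgebra.algebraMap_mem _ _)
  | add x y _ _ hx hy => rw [map_add, hx, hy]
  | inv x _ hx => rw [map_inv₀, hx]
  | mul x y _ _ hx hy => rw [map_mul, hx, hy]

/-- The main theorem. -/
theorem main (hρ : 0 < ρ) (hρn : ρ ≤ n) (hw : ∃ e, (Ue w e).det ≠ 0)
    (hE : ∀ e, (Ue w e).det ≠ 0 → IntermediateField.adjoin k (RE k w e : Set E) = ⊤)
    (hsm : ∀ e, (Ue w e).det ≠ 0 → Algebra.Smooth k (RE k w e)) (lv s : Fin n → ℕ)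
    (hs : ∀ i, s i ∣ Fintype.card F - 1) :
    Pool.Agent.H920R2.HasResolution
      (X := Spec (CommRingCat.of (AA F k n w (p ^ r) lv s)))
      (Spec.map (CommRingCat.ofHom (algebraMap k (AA F k n w (p ^ r) lv s)))) := by
  classical
  have hdom := isDomain_AA (F := F) (k := k) (n := n) (w := w) (p ^ r) lv s
  have hbot : (⊥ : Submodule F (Fin m → LR E n ρ)) = Submodule.span F
      (Set.range fun j : Empty => ((j.elim : Xv F (wL p r n w)) : Fin m → LR E n ρ)) := by
    rw [Set.range_eq_empty, Submodule.span_empty]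
  have S0 := stage0 (F := F) (k := k) (p := p) (r := r) hρn hw
  have hcard : (0 : ℕ) = Fintype.card Empty := rfl
  rw [hcard] at S0
  have hli := xrow_li (F := F) (n := n) (p := p) (r := r) hρ hw
  refine resolution (F := F) (k := k) (L := LR E n ρ) (x := xrow F p r n w) (lv := lv)
    (e := ee F lv s) (s := ρ) (Λ0 := ⊥) (X := Xv F (wL p r n w))
    (g := gA F k p r w lv s hρn) (z := fun j : Empty => j.elim)
    (gA_injective hρn) (B := BB k p r n w) (fun i l => xq_mem_BB w i l)
    (fun b hb V hk hV => BB_val (F := F) hb V hk hV) hbot S0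
    (fun t => smooth_R0 (hsm t.1 t.2)) ?_ ?_
    ?_ (fun t => adjoin_top (hE t.1 t.2)) le_trdeg (ee_spec hs)
    {σ | ∃ g : Matrix.GeneralLinearGroup (Fin n) F,
      Cond lv s (g : Matrix (Fin n) (Fin n) F) ∧ σ = sg E ρ g} ?_ ?_ ?_ ?_
  · intro t σ hσ y hy
    refine map_mem_Xv (e := t.1) ?_ σ (fun l j => hσ _ ?_) y hy
    · rw [det_Ue_wL]
      exact pow_ne_zero _ ((FaithfulSMul.algebraMap_eq_zero_iff _ _).not.2 t.2)
    · rw [We_wL]
      exact Subalgebra.pow_mem _ (We_mem t l j) _
  · rw [Fintype.linearIndependent_iff]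
    intro b hb
    rw [Fintype.sum_sum_type] at hb
    simp only [Finset.univ_eq_empty, Finset.sum_empty, add_zero] at hb
    rintro (i | j)
    · exact Fintype.linearIndependent_iff.1 hli (fun i => b (Sum.inl i)) hb i
    · exact j.elim
  · exact fun a => ⟨algebraMap F k a, (IsScalarTower.algebraMap_apply F k (LR E n ρ) a).symm⟩
  · rintro _ ⟨g, hg, rfl⟩
    refine ⟨fun t => ⟨fun b hb => sg_R0 g t b hb, sg_H0 hρn g t⟩, fun a => ?_⟩
    refine q_of_matrix (L := LR E n ρ) (x := xrow F p r n w) hg g.det_ne_zero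
      (fun i => ?_) a
    rw [Submodule.mem_bot, sub_eq_zero]
    funext j
    rw [xrow_apply, sg_xL, Finset.sum_apply]
    apply Finset.sum_congr rfl
    intro l _
    rw [Pi.smul_apply, Algebra.smul_def]
    rfl
  · intro b hb h
    exact exists_gA hρn hb fun γ hγ => h _ ⟨γ, hγ, rfl⟩
  · rintro σ ⟨t0, hσ0⟩ hσ a
    refine ⟨gA_mem hρn a, ?_⟩
    obtain ⟨g, hdet, hg, hgσ⟩ := matrix_of_q hs hσ
    have hσx : ∀ i j, σ (xL n (wq (p ^ r) w) i j) =
        ∑ l, algebraMap F (LR E n ρ) (g i l) * xL n (wq (p ^ r) w) l j := by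
      intro i j
      have h2 := hgσ i
      rw [Submodule.mem_bot, sub_eq_zero] at h2
      have h3 := congrFun h2 j
      rw [xrow_apply, Finset.sum_apply] at h3
      rw [h3]
      apply Finset.sum_congr rfl
      intro l _
      rw [Pi.smul_apply, Algebra.smul_def]
      rfl
    have h4 : σ = sg E ρ (Matrix.GeneralLinearGroup.mkOfDetNeZero g hdet) :=
      eq_sg (fun a => fix_E (hE t0.1 t0.2) hσ0 a) hw hσx
    rw [h4]
    exact sg_gA hρn hg a
  · exact fun V hV b hb => BB_of_gA hρn V hV b hb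

end Pool.Agent.J6H83.Nr
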